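import Pool.Agent.H887Z.Mod.Defs
import Pool.Agent.Helper819.Gr.Res4
import Pool.Agent.Helper819.Gr.Lead5
import Pool.Agent.Helper819.Pt
import Pool.Agent.Helper819.CloseGL

/-!
The conjugation action, the resultant, and the description of invariant regular functions as
quotients of semi-invariants.
-/

open MvPolynomial

namespace Pool.Agent.H887Z.Mod

open Pool.Agent.Helper819.Gr Pool.Agent.Helper819.Dyn

noncomputable section

set_option linter.unusedSectionVars false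

/-- the conjugation action -/
def CA (N d : ℕ) : DAct Unit (N + 1) (Ix N d) where
  act A c := actT (A ()) c
  map_act φ A c p := map_actT φ (A ()) c p
  act_act A B c := actT_actT (A ()) (B ()) c
  act_one c := actT_one c
  act_add A c c' := actT_add (A ()) c c'
  act_smul A r c := actT_smul (A ()) r c
  xi Y c := Pool.Agent.Helper819.Dyn.xi (Y ()) c
  xi_add Y Y' c := Pool.Agent.Helper819.Dyn.xi_add (Y ()) (Y' ()) c
  xi_smul r Y c := Pool.Agent.Helper819.Dyn.xi_smul r (Y ()) c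
  map_xi φ Y c p := Pool.Agent.Helper819.Dyn.map_xi φ (Y ()) c p
  act_eps e he Y c p := actT_eps e he (Y ()) c p

theorem detw_unit {R : Type} [CommRing R] {n : ℕ} (w : Unit → ℕ) (A : Mt Unit n R) :
    detw w A = (A ()).det ^ w () := by
  unfold detw
  rw [Fintype.prod_unique]

/-- resultant data -/
structure RD (k : Type) [Field k] (N d : ℕ) where
  D : MvPolynomial (Ix N d) k
  ρ : ℕ
  semi : IsSemi (CA N d).toRAct (fun _ => (N + d) * ρ) D
  iff : ∀ c, eval c D ≠ 0 ↔ NZ (tup c)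

theorem exists_RD {k : Type} [Field k] [IsAlgClosed k] [CharZero k] {N d : ℕ} (hd : 1 ≤ d) :
    Nonempty (RD k N d) := by
  obtain ⟨D, r, h1, h2, h3, -⟩ := exists_res (k := k) (N := N) (e := d) hd
  refine ⟨⟨D, r false, fun A c => ?_, h3⟩⟩
  have h4 := h1 (fun s => cond s (A ()) (A ()).adjugate.transpose) c
  have h5 : (ZA N d).act (fun s => cond s (A ()) (A ()).adjugate.transpose) c =
      (CA N d).act A c := rfl
  rw [h5] at h4
  rw [h4, detw_unit]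
  congr 1
  unfold detw
  rw [Fintype.prod_bool]
  change (A ()).det ^ r true * (A ()).adjugate.transpose.det ^ r false = _
  rw [Matrix.det_transpose, Matrix.det_adjugate, Fintype.card_fin, h2, ← pow_mul, ← pow_add]
  congr 1
  rw [Nat.add_sub_cancel]
  ring

variable {k : Type} [Field k] {N d : ℕ}

theorem tup_coeffs (F : End k N d) : tup (coeffs F : Ix N d → k) = F.1 := tup_cf F.2.1

theorem End.ext_coeffs {F G : End k N d} (h : coeffs F = coeffs G) : F = G := by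
  apply Subtype.ext
  rw [← tup_coeffs F, ← tup_coeffs G, h]

theorem conj_eq [IsAlgClosed k] (φ : GL (Fin (N + 1)) k) (F : Tup k N) (i : Fin (N + 1)) :
    act (φ : Matrix (Fin (N + 1)) (Fin (N + 1)) k) F i =
      C (Matrix.det (φ : Matrix (Fin (N + 1)) (Fin (N + 1)) k)) * conj φ F i :=
  conj_eq_act φ F i

theorem det_GL_ne (φ : GL (Fin (N + 1)) k) :
    Matrix.det (φ : Matrix (Fin (N + 1)) (Fin (N + 1)) k) ≠ 0 :=
  ((Matrix.isUnit_iff_isUnit_det _).mp φ.isUnit).ne_zero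

theorem coeffs_conj [IsAlgClosed k] (φ : GL (Fin (N + 1)) k) {F G : End k N d}
    (h : G.1 = conj φ F.1) : actT (φ : Matrix (Fin (N + 1)) (Fin (N + 1)) k) (coeffs F) =
      Matrix.det (φ : Matrix (Fin (N + 1)) (Fin (N + 1)) k) • (coeffs G : Ix N d → k) := by
  unfold actT
  rw [tup_coeffs]
  have h1 : act (φ : Matrix (Fin (N + 1)) (Fin (N + 1)) k) F.1 =
      fun i => C (Matrix.det (φ : Matrix (Fin (N + 1)) (Fin (N + 1)) k)) * G.1 i := by
    funext i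
    rw [conj_eq, h]
  rw [h1, cf_C_mul]
  rfl

namespace RD

variable (𝓡 : RD k N d)

/-- weight of the resultant -/
def w : Unit → ℕ := fun _ => (N + d) * 𝓡.ρ

/-- semi-invariants of the weight of the `m`-th power of the resultant -/
abbrev Sm (m : ℕ) (q : MvPolynomial (Ix N d) k) : Prop := IsSemi (CA N d).toRAct (m • 𝓡.w) q

theorem D_semi : IsSemi (CA N d).toRAct 𝓡.w 𝓡.D := 𝓡.semi

theorem D_pow (m : ℕ) : 𝓡.Sm m (𝓡.D ^ m) := 𝓡.D_semi.pow m

variable {𝓡} in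
theorem Sm.mul {m m' : ℕ} {q q' : MvPolynomial (Ix N d) k} (h : 𝓡.Sm m q) (h' : 𝓡.Sm m' q') :
    𝓡.Sm (m + m') (q * q') := by
  unfold Sm
  rw [add_smul]
  exact IsSemi.mul h h'

variable {𝓡} in
theorem Sm.eval_actT {m : ℕ} {q : MvPolynomial (Ix N d) k} (h : 𝓡.Sm m q)
    (A : Matrix (Fin (N + 1)) (Fin (N + 1)) k) (c : Ix N d → k) :
    eval (actT A c) q = (A.det ^ ((N + d) * 𝓡.ρ)) ^ m * eval c q := by
  have h1 := h (fun _ => A) c
  rw [detw_smul, detw_unit] at h1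
  exact h1

theorem eval_actT_D (A : Matrix (Fin (N + 1)) (Fin (N + 1)) k) (c : Ix N d → k) :
    eval (actT A c) 𝓡.D = A.det ^ ((N + d) * 𝓡.ρ) * eval c 𝓡.D := by
  have h1 := 𝓡.D_semi (fun _ => A) c
  rw [detw_unit] at h1
  exact h1

variable {𝓡} in
theorem Sm.homog [IsAlgClosed k] (hd : 1 ≤ d) {m : ℕ} {q : MvPolynomial (Ix N d) k}
    (h : 𝓡.Sm m q) : q.IsHomogeneous (m * ((N + 1) * 𝓡.ρ)) := by
  have hinf : Infinite k := IsAlgClosed.instInfinite
  apply homog_of_scale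
  intro a x
  obtain ⟨t, ht⟩ := IsAlgClosed.exists_pow_nat_eq a (n := N + d) (by omega)
  have h1 := h.eval_actT (t • 1) x
  rw [actT_scalar, ht, Matrix.det_smul, Matrix.det_one, Fintype.card_fin] at h1
  rw [h1, ← ht]
  ring

theorem D_coeffs (F : End k N d) : eval (coeffs F : Ix N d → k) 𝓡.D ≠ 0 := by
  rw [𝓡.iff, tup_coeffs]
  exact F.2.2

/-- the endomorphism with given coefficients -/
def toEnd (c : Ix N d → k) (hc : eval c 𝓡.D ≠ 0) : End k N d :=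
  ⟨tup c, tup_homog c, (𝓡.iff c).mp hc⟩

theorem coeffs_toEnd (c : Ix N d → k) (hc : eval c 𝓡.D ≠ 0) : coeffs (𝓡.toEnd c hc) = c :=
  cf_tup c

theorem D_ne_zero (hd : 1 ≤ d) : 𝓡.D ≠ 0 := by
  intro h
  apply (𝓡.iff _).mpr (NZ_pwt (k := k) (N := N) hd)
  rw [h, map_zero]

include 𝓡 in
theorem eq_zero_of_End [Infinite k] (hd : 1 ≤ d) {P : MvPolynomial (Ix N d) k}
    (h : ∀ F : End k N d, eval (coeffs F : Ix N d → k) P = 0) : P = 0 := by
  have h1 : P * 𝓡.D = 0 := by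
    apply MvPolynomial.funext
    intro c
    rw [map_mul, map_zero]
    by_cases hc : eval c 𝓡.D = 0
    · rw [hc, mul_zero]
    · have h2 := h (𝓡.toEnd c hc)
      rw [coeffs_toEnd] at h2
      rw [h2, zero_mul]
  exact (mul_eq_zero.mp h1).resolve_right (𝓡.D_ne_zero hd)

/-- the invariant function `q / D ^ m` -/
def mk' [IsAlgClosed k] (hd : 1 ≤ d) (m : ℕ) (q : MvPolynomial (Ix N d) k) (hq : 𝓡.Sm m q) :
    Inv k N d :=
  ⟨fun F => eval (coeffs F : Ix N d → k) q / eval (coeffs F : Ix N d → k) 𝓡.D ^ m, by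
    refine ⟨fun F => ⟨m * ((N + 1) * 𝓡.ρ), q, 𝓡.D ^ m, hq.homog hd, (𝓡.D_pow m).homog hd, ?_,
      fun G _ => ?_⟩, fun φ F G h => ?_⟩
    · rw [map_pow]
      exact pow_ne_zero _ (𝓡.D_coeffs F)
    · rw [map_pow]
    · have h1 := coeffs_conj φ h
      have h2 := hq.eval_actT (φ : Matrix (Fin (N + 1)) (Fin (N + 1)) k) (coeffs F)
      have h3 := (𝓡.D_pow m).eval_actT (φ : Matrix (Fin (N + 1)) (Fin (N + 1)) k) (coeffs F)
      rw [h1, eval_smul_hom (hq.homog hd)] at h2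
      rw [h1, eval_smul_hom ((𝓡.D_pow m).homog hd), map_pow, map_pow] at h3
      have h4 := det_GL_ne φ
      have h5 := 𝓡.D_coeffs F
      have h6 := 𝓡.D_coeffs G
      change eval (coeffs G : Ix N d → k) q / eval (coeffs G : Ix N d → k) 𝓡.D ^ m =
        eval (coeffs F : Ix N d → k) q / eval (coeffs F : Ix N d → k) 𝓡.D ^ m
      rw [div_eq_div_iff (pow_ne_zero _ h6) (pow_ne_zero _ h5)]
      apply mul_left_cancel₀ (pow_ne_zero (m * ((N + 1) * 𝓡.ρ)) h4)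
      rw [← mul_assoc, h2, mul_left_comm, h3]
      ring⟩

/-- `h = q / D ^ m` -/
def Rep (h : Inv k N d) (m : ℕ) (q : MvPolynomial (Ix N d) k) : Prop :=
  ∀ F : End k N d, h.1 F * eval (coeffs F : Ix N d → k) 𝓡.D ^ m = eval (coeffs F : Ix N d → k) q

theorem rep_mk' [IsAlgClosed k] (hd : 1 ≤ d) (m : ℕ) (q : MvPolynomial (Ix N d) k)
    (hq : 𝓡.Sm m q) : 𝓡.Rep (𝓡.mk' hd m q hq) m q := fun F =>
  div_mul_cancel₀ _ (pow_ne_zero _ (𝓡.D_coeffs F))

theorem exists_rep0 [IsAlgClosed k] (h : Inv k N d) : ∃ m q, 𝓡.Rep h m q := by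
  let J : Ideal (MvPolynomial (Ix N d) k) :=
    { carrier := {Q | ∃ P : MvPolynomial (Ix N d) k, ∀ F : End k N d,
        h.1 F * eval (coeffs F : Ix N d → k) Q = eval (coeffs F : Ix N d → k) P}
      add_mem' := by
        rintro Q Q' ⟨P, hP⟩ ⟨P', hP'⟩
        exact ⟨P + P', fun c => by rw [map_add, map_add, mul_add, hP, hP']⟩
      zero_mem' := ⟨0, fun c => by rw [map_zero, mul_zero]⟩
      smul_mem' := by
        rintro R Q ⟨P, hP⟩
        exact ⟨R * P, fun c => by rw [smul_eq_mul, map_mul, map_mul, ← hP]; ring⟩ }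
  have hrad : 𝓡.D ∈ J.radical := by
    rw [← vanishingIdeal_zeroLocus_eq_radical (K := k), mem_vanishingIdeal_iff]
    intro c0 hc0
    by_contra hne
    rw [aeval_eq_eval_self] at hne
    obtain ⟨m, P, Q, -, -, hQ, h1⟩ := h.2.1 (𝓡.toEnd c0 hne)
    rw [coeffs_toEnd] at hQ
    have h2 : Q * Q ∈ J := by
      refine ⟨Q * P, fun F => ?_⟩
      rw [map_mul, map_mul]
      by_cases h0 : eval (coeffs F) Q = 0
      · rw [h0]; ring
      · rw [h1 F h0]
        field_simp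
    have h3 := (mem_zeroLocus_iff.mp hc0) _ h2
    rw [aeval_eq_eval_self, map_mul] at h3
    exact hQ (mul_self_eq_zero.mp h3)
  obtain ⟨m, P, hP⟩ := hrad
  refine ⟨m, P, fun c => ?_⟩
  rw [← hP, map_pow]

theorem inv_smul (h : Inv k N d) {F G : End k N d} {a : k} (ha : a ≠ 0)
    (hG : coeffs G = a • coeffs F) : h.1 G = h.1 F := by
  obtain ⟨m, P, Q, hP, hQ, h0, h1⟩ := h.2.1 F
  have h2 : eval (coeffs G) Q ≠ 0 := by
    rw [hG, eval_smul_hom hQ]
    exact mul_ne_zero (pow_ne_zero _ ha) h0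
  rw [h1 G h2, h1 F h0, hG, eval_smul_hom hQ, eval_smul_hom hP,
    mul_div_mul_left _ _ (pow_ne_zero _ ha)]

include 𝓡 in
theorem inv_actT [IsAlgClosed k] (hd : 1 ≤ d) (h : Inv k N d) {F G : End k N d}
    {A : Matrix (Fin (N + 1)) (Fin (N + 1)) k} (hA : A.det ≠ 0)
    (hG : coeffs G = actT A (coeffs F)) : h.1 G = h.1 F := by
  have hu : IsUnit A := (Matrix.isUnit_iff_isUnit_det A).mpr (isUnit_iff_ne_zero.mpr hA)
  have h1 : eval (A.det⁻¹ • (coeffs G : Ix N d → k)) 𝓡.D ≠ 0 := by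
    have h2 := (𝓡.D_pow 1).homog hd
    rw [pow_one] at h2
    rw [eval_smul_hom h2]
    exact mul_ne_zero (pow_ne_zero _ (inv_ne_zero hA)) (𝓡.D_coeffs G)
  have h3 := inv_smul h (F := G) (G := 𝓡.toEnd _ h1) (inv_ne_zero hA) (𝓡.coeffs_toEnd _ _)
  rw [← h3]
  apply h.2.2 hu.unit
  change tup _ = _
  rw [tup_smul, hG, tup_actT, tup_coeffs]
  funext i
  have h4 := conj_eq hu.unit F.1 i
  rw [IsUnit.unit_spec] at h4
  rw [h4, ← mul_assoc, ← C_mul, inv_mul_cancel₀ hA, C_1, one_mul]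

variable {𝓡} in
theorem Rep.semi [IsAlgClosed k] (hd : 1 ≤ d) {h : Inv k N d} {m : ℕ}
    {q : MvPolynomial (Ix N d) k} (hq : 𝓡.Rep h m q) : 𝓡.Sm m q := by
  have hinf : Infinite k := IsAlgClosed.instInfinite
  have h1 : ∀ (F : End k N d) (A : Mt Unit (N + 1) k),
      eval ((CA N d).act A (coeffs F)) q = detw (m • 𝓡.w) A * eval (coeffs F : Ix N d → k) q := by
    intro F A
    have h2 : aeval (Pool.Agent.Helper819.Gr.orb (CA N d).toRAct (coeffs F)) q =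
        C (eval (coeffs F : Ix N d → k) q) * dtw (N + 1) k (m • 𝓡.w) := by
      apply Pool.Agent.Helper819.Gr.poly_ext
      intro A hA
      rw [Pool.Agent.Helper819.Gr.eval_aeval_orb, map_mul, eval_C, eval_dtw]
      have h4 := 𝓡.D_semi A (coeffs F)
      have h5 : eval ((CA N d).act A (coeffs F)) 𝓡.D ≠ 0 := by
        rw [h4]
        exact mul_ne_zero (detw_ne_zero _ _ hA) (𝓡.D_coeffs F)
      have h3 := hq (𝓡.toEnd _ h5)
      rw [𝓡.inv_actT hd h (F := F) (G := 𝓡.toEnd _ h5) (hA ()) (𝓡.coeffs_toEnd _ h5),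
        coeffs_toEnd] at h3
      rw [← h3, h4, mul_pow, ← hq F, detw_smul]
      ring
    rw [← Pool.Agent.Helper819.Gr.eval_aeval_orb, h2, map_mul, eval_C, eval_dtw, mul_comm]
  intro A c
  have h5 : Pool.Agent.Helper819.Gr.compT (CA N d).toRAct A q - C (detw (m • 𝓡.w) A) * q = 0 := by
    apply 𝓡.eq_zero_of_End hd
    intro F
    rw [map_sub, map_mul, eval_C, Pool.Agent.Helper819.Gr.eval_compT, h1, sub_self]
  have h8 := congrArg (eval c) h5
  rw [map_sub, map_mul, eval_C, Pool.Agent.Helper819.Gr.eval_compT, map_zero, sub_eq_zero] at h8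
  exact h8

variable {𝓡} in
theorem Rep.unique [Infinite k] (hd : 1 ≤ d) {h : Inv k N d} {m m' : ℕ}
    {q q' : MvPolynomial (Ix N d) k} (hq : 𝓡.Rep h m q) (hq' : 𝓡.Rep h m' q') :
    q * 𝓡.D ^ m' = q' * 𝓡.D ^ m := by
  rw [← sub_eq_zero]
  apply 𝓡.eq_zero_of_End hd
  intro F
  rw [map_sub, map_mul, map_mul, map_pow, map_pow, ← hq F, ← hq' F]
  ring

variable {𝓡} in
theorem Rep.mul {h h' : Inv k N d} {m m' : ℕ} {q q' : MvPolynomial (Ix N d) k}
    (hq : 𝓡.Rep h m q) (hq' : 𝓡.Rep h' m' q') : 𝓡.Rep (h * h') (m + m') (q * q') := by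
  intro F
  rw [map_mul, ← hq F, ← hq' F]
  change h.1 F * h'.1 F * _ = _
  ring

variable {𝓡} in
theorem Rep.add {h h' : Inv k N d} {m m' : ℕ} {q q' : MvPolynomial (Ix N d) k}
    (hq : 𝓡.Rep h m q) (hq' : 𝓡.Rep h' m' q') :
    𝓡.Rep (h + h') (m + m') (q * 𝓡.D ^ m' + 𝓡.D ^ m * q') := by
  intro F
  rw [map_add, map_mul, map_mul, map_pow, map_pow, ← hq F, ← hq' F]
  change (h.1 F + h'.1 F) * _ = _
  ring

variable {𝓡} in
theorem Rep.shift {h : Inv k N d} {m : ℕ} {q : MvPolynomial (Ix N d) k}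
    (hq : 𝓡.Rep h m q) (l : ℕ) : 𝓡.Rep h (l + m) (𝓡.D ^ l * q) := by
  intro F
  rw [map_mul, map_pow, ← hq F]
  ring

variable {𝓡} in
theorem Rep.eq {h h' : Inv k N d} {m : ℕ} {q : MvPolynomial (Ix N d) k}
    (hq : 𝓡.Rep h m q) (hq' : 𝓡.Rep h' m q) : h = h' := by
  apply Subtype.ext
  funext F
  apply mul_right_cancel₀ (pow_ne_zero m (𝓡.D_coeffs F))
  rw [hq F, hq' F]

theorem rep_algebraMap (a : k) : 𝓡.Rep (algebraMap k (Inv k N d) a) 0 (C a) := by
  intro F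
  rw [pow_zero, mul_one, eval_C]
  rfl

section lift

variable [IsAlgClosed k] (hd : 1 ≤ d) {L : Type} [CommRing L] [Algebra k L]
  (φ : MvPolynomial (Ix N d) k →ₐ[k] L) (hφ : IsUnit (φ 𝓡.D))

/-- underlying function of the lift -/
def liftFun (h : Inv k N d) : L :=
  φ (𝓡.exists_rep0 h).choose_spec.choose * (↑hφ.unit⁻¹ : L) ^ (𝓡.exists_rep0 h).choose

include hd in
theorem liftFun_spec {h : Inv k N d} {m : ℕ} {q : MvPolynomial (Ix N d) k} (hq : 𝓡.Rep h m q) :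
    𝓡.liftFun φ hφ h * φ 𝓡.D ^ m = φ q := by
  have hinf : Infinite k := IsAlgClosed.instInfinite
  have h1 := congrArg φ (Rep.unique hd (𝓡.exists_rep0 h).choose_spec.choose_spec hq)
  rw [map_mul, map_mul, map_pow, map_pow] at h1
  unfold liftFun
  rw [mul_right_comm, h1, mul_assoc, ← mul_pow, IsUnit.mul_val_inv, one_pow, mul_one]

include hd in
theorem liftFun_eq {h : Inv k N d} {m : ℕ} {q : MvPolynomial (Ix N d) k} (hq : 𝓡.Rep h m q)
    {x : L} (hx : x * φ 𝓡.D ^ m = φ q) : 𝓡.liftFun φ hφ h = x := by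
  apply (hφ.pow m).mul_right_cancel
  rw [𝓡.liftFun_spec hd φ hφ hq, hx]

/-- extension of a point of the resultant complement to invariant functions -/
def lift : Inv k N d →ₐ[k] L where
  toFun := 𝓡.liftFun φ hφ
  map_one' := 𝓡.liftFun_eq hd φ hφ (𝓡.rep_algebraMap 1) (by simp)
  map_mul' h h' := by
    obtain ⟨m, q, hq⟩ := 𝓡.exists_rep0 h
    obtain ⟨m', q', hq'⟩ := 𝓡.exists_rep0 h'
    apply 𝓡.liftFun_eq hd φ hφ (hq.mul hq')
    rw [map_mul, ← 𝓡.liftFun_spec hd φ hφ hq, ← 𝓡.liftFun_spec hd φ hφ hq']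
    ring
  map_zero' := by
    have h1 := 𝓡.rep_algebraMap 0
    rw [map_zero] at h1
    exact 𝓡.liftFun_eq hd φ hφ h1 (by simp)
  map_add' h h' := by
    obtain ⟨m, q, hq⟩ := 𝓡.exists_rep0 h
    obtain ⟨m', q', hq'⟩ := 𝓡.exists_rep0 h'
    apply 𝓡.liftFun_eq hd φ hφ (hq.add hq')
    rw [map_add, map_mul, map_mul, map_pow, map_pow, ← 𝓡.liftFun_spec hd φ hφ hq,
      ← 𝓡.liftFun_spec hd φ hφ hq']
    ring
  commutes' a := 𝓡.liftFun_eq hd φ hφ (𝓡.rep_algebraMap a) (by simp)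

theorem lift_spec {h : Inv k N d} {m : ℕ} {q : MvPolynomial (Ix N d) k} (hq : 𝓡.Rep h m q) :
    𝓡.lift hd φ hφ h * φ 𝓡.D ^ m = φ q := 𝓡.liftFun_spec hd φ hφ hq

theorem map_lift {L' : Type} [CommRing L'] [Algebra k L'] (ψ : L →ₐ[k] L') (h : Inv k N d)
    (hψ : IsUnit ((ψ.comp φ) 𝓡.D)) :
    ψ (𝓡.lift hd φ hφ h) = 𝓡.lift hd (ψ.comp φ) hψ h := by
  obtain ⟨m, q, hq⟩ := 𝓡.exists_rep0 h
  symm
  apply 𝓡.liftFun_eq hd _ hψ hq
  rw [AlgHom.comp_apply, AlgHom.comp_apply, ← map_pow, ← map_mul, 𝓡.lift_spec hd φ hφ hq]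

theorem lift_eval (F : End k N d) (ψ : L →ₐ[k] k)
    (hψ : ∀ P, ψ (φ P) = eval (coeffs F : Ix N d → k) P) (h : Inv k N d) :
    ψ (𝓡.lift hd φ hφ h) = h.1 F := by
  obtain ⟨m, q, hq⟩ := 𝓡.exists_rep0 h
  apply mul_right_cancel₀ (pow_ne_zero m (𝓡.D_coeffs F))
  rw [hq F, ← hψ, ← hψ, ← map_pow, ← map_mul, 𝓡.lift_spec hd φ hφ hq]

end lift

theorem closed_orbit [IsAlgClosed k] (hd : 2 ≤ d) {f c : Ix N d → k} (hf : eval f 𝓡.D ≠ 0)
    (hc : eval c 𝓡.D ≠ 0) (h : ∀ P : MvPolynomial (Ix N d) k,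
      aeval (Pool.Agent.Helper819.Gr.orb (CA N d).toRAct f) P = 0 → eval c P = 0) :
    ∃ A : Matrix (Fin (N + 1)) (Fin (N + 1)) k, A.det ≠ 0 ∧ actT A f = c := by
  have hinf : Infinite k := IsAlgClosed.instInfinite
  apply closed_GL hd ((𝓡.iff f).mp hf) c ((𝓡.iff c).mp hc)
  intro P hP
  apply h
  apply Pool.Agent.Helper819.Gr.poly_ext
  intro A hA
  rw [Pool.Agent.Helper819.Gr.eval_aeval_orb, map_zero]
  exact hP (A ()) (hA ())

theorem lead [IsAlgClosed k] [CharZero k] (hd : 2 ≤ d) {f : Ix N d → k} (hf : eval f 𝓡.D ≠ 0)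
    (j : ℕ) (Q : MvPolynomial (Ix N d) k) (hQj : Q.IsHomogeneous j)
    (hQT : ∀ (Y : Matrix (Fin (N + 1)) (Fin (N + 1)) k) (v : Ix N d → k),
      eval (v + Pool.Agent.Helper819.Dyn.xi Y f) Q = eval v Q)
    (hQH : ∀ A : Matrix (Fin (N + 1)) (Fin (N + 1)) k, A.det ≠ 0 → actT A f = f →
      ∀ v : Ix N d → k, eval (actT A v) Q = eval v Q) :
    ∃ (m : ℕ) (q : MvPolynomial (Ix N d) k), 𝓡.Sm m q ∧ Ord j q f ∧
      ∀ v, eval v (lf j q f) = eval f 𝓡.D ^ m * eval v Q := by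
  apply exists_lead (CA N d) f 𝓡.D_semi _ j Q hQj (fun Y v => hQT (Y ()) v)
    (fun A hA hAf v => hQH (A ()) (hA ()) hAf v)
  intro c hc h P hP
  obtain ⟨A, hA, hAc⟩ := 𝓡.closed_orbit hd hf hc h
  have h1 := Pool.Agent.Helper819.Gr.eval_aeval_orb (CA N d).toRAct (fun _ => A⁻¹) c P
  rw [hP, map_zero] at h1
  rw [h1]
  change _ = eval (actT A⁻¹ c) P
  rw [← hAc, actT_actT, Matrix.mul_nonsing_inv _ (isUnit_iff_ne_zero.mpr hA), actT_one]

end RD

theorem mem_pt (F : End k N d) (h : Inv k N d) : h ∈ (pt F).asIdeal ↔ h.1 F = 0 := Iff.rfl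

theorem aut_iff [IsAlgClosed k] (hd : 1 ≤ d) (F : End k N d) :
    HasNontrivialAut F ↔ ∃ A : Matrix (Fin (N + 1)) (Fin (N + 1)) k, A.det ≠ 0 ∧
      actT A (coeffs F : Ix N d → k) = coeffs F ∧ ¬ ∃ a : k, A = a • 1 := by
  constructor
  · rintro ⟨φ, c, h1, h2⟩
    have h3 : actT (φ : Matrix (Fin (N + 1)) (Fin (N + 1)) k) (coeffs F : Ix N d → k) =
        (Matrix.det (φ : Matrix (Fin (N + 1)) (Fin (N + 1)) k) * c) • coeffs F := by
      unfold actT
      rw [tup_coeffs]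
      have h4 : act (φ : Matrix (Fin (N + 1)) (Fin (N + 1)) k) F.1 = fun i =>
          C (Matrix.det (φ : Matrix (Fin (N + 1)) (Fin (N + 1)) k) * c) * F.1 i := by
        funext i
        rw [conj_eq, h1, C_mul, mul_assoc]
      rw [h4, cf_C_mul]
      rfl
    have h5 : Matrix.det (φ : Matrix (Fin (N + 1)) (Fin (N + 1)) k) * c ≠ 0 :=
      mul_ne_zero (det_GL_ne φ) c.ne_zero
    obtain ⟨t, ht⟩ := IsAlgClosed.exists_pow_nat_eq
      (Matrix.det (φ : Matrix (Fin (N + 1)) (Fin (N + 1)) k) * c)⁻¹ (n := N + d) (by omega)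
    have ht0 : t ≠ 0 := by
      rintro rfl
      rw [zero_pow (by omega)] at ht
      exact inv_ne_zero h5 ht.symm
    refine ⟨t • (φ : Matrix (Fin (N + 1)) (Fin (N + 1)) k), ?_, ?_, ?_⟩
    · rw [Matrix.det_smul]
      exact mul_ne_zero (pow_ne_zero _ ht0) (det_GL_ne φ)
    · rw [actT_smul_mat, h3, ht, smul_smul, inv_mul_cancel₀ h5, one_smul]
    · rintro ⟨a, ha⟩
      apply h2
      refine ⟨t⁻¹ * a, ?_⟩
      rw [mul_smul, ← ha, smul_smul, inv_mul_cancel₀ ht0, one_smul]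
  · rintro ⟨A, hA, h1, h2⟩
    have hu : IsUnit A := (Matrix.isUnit_iff_isUnit_det A).mpr (isUnit_iff_ne_zero.mpr hA)
    refine ⟨hu.unit, Units.mk0 A.det⁻¹ (inv_ne_zero hA), ?_, ?_⟩
    · funext i
      have h3 := conj_eq hu.unit F.1 i
      rw [IsUnit.unit_spec] at h3
      have h4 := congrArg tup h1
      rw [tup_actT, tup_coeffs] at h4
      rw [h4] at h3
      rw [Units.val_mk0, h3, ← mul_assoc, ← C_mul, inv_mul_cancel₀ hA, C_1, one_mul]
    · rw [IsUnit.unit_spec]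
      exact h2

end

end Pool.Agent.H887Z.Mod
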