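import Pool.Agent.H887Z.Mod.Act
import Pool.Agent.Helper819.Gr.V1
import Pool.Agent.Helper819.Diag2

/-!
Counting the coordinates moved by a diagonal automorphism, and families covering the locus of
maps with nontrivial automorphisms.
-/

open MvPolynomial

namespace Pool.Agent.H887Z.Mod

open Pool.Agent.Helper819.Gr Pool.Agent.Helper819.Dyn

noncomputable section

set_option linter.unusedSectionVars false

variable {N d : ℕ}

theorem actT_diagonal {R : Type} [CommRing R] (l : Fin (N + 1) → R) (c : Ix N d → R)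
    (p : Ix N d) : actT (Matrix.diagonal l) c p =
      (∏ j ∈ Finset.univ.erase p.1, l j) * mon l p.2.1 * c p := by
  have h1 := ZA_diagonal (fun s => cond s (Matrix.diagonal l) (Matrix.diagonal l).adjugate.transpose)
    (fun i => ∏ j ∈ Finset.univ.erase i, l j) l rfl (by
      change (Matrix.diagonal l).adjugate.transpose = _
      rw [Matrix.adjugate_diagonal, Matrix.diagonal_transpose]) c p
  exact h1

theorem card_Ex_ge (hN : 2 ≤ N) (hd : 2 ≤ d) : 2 * (N + 1) ≤ Fintype.card (Ex N d) := by
  rw [Fintype.card_coe, Finset.card_finsuppAntidiag_nat_eq_choose, Finset.card_univ,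
    Fintype.card_fin]
  have h1 : N + 1 + d - 1 = N + d := by omega
  rw [h1, Nat.add_comm N d, Nat.choose_symm_add]
  have h2 : (2 + N).choose N ≤ (d + N).choose N := Nat.choose_le_choose N (by omega)
  refine le_trans ?_ h2
  rw [← Nat.choose_symm_add, Nat.choose_two_right]
  apply (Nat.le_div_iff_mul_le (by norm_num)).mpr
  have h3 : 2 + N - 1 = N + 1 := by omega
  rw [h3]
  nlinarith

section count

variable {k : Type} [Field k]

/-- the monomial `x_p ^ (d - 2) x_j x_e` -/
def mo (hd : 2 ≤ d) (p j e : Fin (N + 1)) : Ex N d :=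
  ⟨Finsupp.single p (d - 2) + Finsupp.single j 1 + Finsupp.single e 1, by
    rw [mem_Ex, map_add, map_add, Finsupp.degree_single, Finsupp.degree_single,
      Finsupp.degree_single]
    omega⟩

open Classical in
theorem card_ne_ge (hd : 2 ≤ d) (l : Fin (N + 1) → k) (hl : ∀ j, l j ≠ 0) {p q : Fin (N + 1)}
    (hpq : l p ≠ l q) (c : k) :
    N ≤ (Finset.univ.filter fun m : Ex N d => mon l m.1 ≠ c).card := by
  have hpq' : p ≠ q := by
    rintro rfl
    exact hpq rfl
  have hex : ∀ j : Fin (N + 1), ∃ e, (e = p ∨ e = q) ∧ mon l (mo hd p j e).1 ≠ c := by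
    intro j
    by_contra hcon
    push Not at hcon
    have h1 := hcon p (Or.inl rfl)
    have h2 := hcon q (Or.inr rfl)
    rw [← h2] at h1
    change mon l (_ + Finsupp.single p 1) = mon l (_ + Finsupp.single q 1) at h1
    rw [mon_add, mon_add l _ (Finsupp.single q 1), mon_single, mon_single] at h1
    refine hpq (mul_left_cancel₀ ?_ h1)
    exact Finset.prod_ne_zero_iff.mpr fun j _ => pow_ne_zero _ (hl j)
  choose e he1 he2 using hex
  have h1 : (Finset.univ.erase q).card = N := by
    rw [Finset.card_erase_of_mem (Finset.mem_univ _), Finset.card_univ, Fintype.card_fin]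
    rfl
  refine le_trans h1.symm.le (Finset.card_le_card_of_injOn (fun j => mo hd p j (e j)) ?_ ?_)
  · intro j _
    simp only [Finset.coe_filter, Finset.mem_univ, true_and, Set.mem_ofPred_eq]
    exact he2 j
  · intro j hj j' hj' h
    have hjq : j ≠ q := (Finset.mem_erase.mp hj).1
    have hjq' : j' ≠ q := (Finset.mem_erase.mp hj').1
    have h2 := congrArg Subtype.val h
    change Finsupp.single p (d - 2) + Finsupp.single j 1 + Finsupp.single (e j) 1 =
      Finsupp.single p (d - 2) + Finsupp.single j' 1 + Finsupp.single (e j') 1 at h2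
    rw [add_assoc, add_assoc, add_right_inj] at h2
    have h3 := DFunLike.congr_fun h2 q
    rw [Finsupp.add_apply, Finsupp.add_apply, Finsupp.single_eq_of_ne hjq.symm,
      Finsupp.single_eq_of_ne hjq'.symm] at h3
    have h4 : e j = e j' := by
      rcases he1 j with h5 | h5 <;> rcases he1 j' with h6 | h6
      · rw [h5, h6]
      · rw [h5, h6, Finsupp.single_eq_of_ne hpq'.symm, Finsupp.single_eq_same] at h3
        omega
      · rw [h5, h6, Finsupp.single_eq_of_ne hpq'.symm, Finsupp.single_eq_same] at h3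
        omega
      · rw [h5, h6]
    rw [h4, add_left_inj] at h2
    exact Finsupp.single_left_injective one_ne_zero h2

open Classical in
/-- the coordinates moved by a diagonal matrix -/
def moved (d : ℕ) (l : Fin (N + 1) → k) : Finset (Ix N d) :=
  Finset.univ.filter fun p => (∏ j ∈ Finset.univ.erase p.1, l j) * mon l p.2.1 ≠ 1

theorem mem_moved (l : Fin (N + 1) → k) (p : Ix N d) :
    p ∈ moved d l ↔ (∏ j ∈ Finset.univ.erase p.1, l j) * mon l p.2.1 ≠ 1 := by
  unfold moved
  simp only [Finset.mem_filter, Finset.mem_univ, true_and]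

theorem card_moved (hN : 2 ≤ N) (hd : 2 ≤ d) (l : Fin (N + 1) → k) (hl : ∀ j, l j ≠ 0)
    {p q : Fin (N + 1)} (hpq : l p ≠ l q) : (N + 1) * N + 2 ≤ (moved d l).card := by
  classical
  have hpq' : p ≠ q := by
    rintro rfl
    exact hpq rfl
  let c : Fin (N + 1) → k := fun i => (∏ j ∈ Finset.univ.erase i, l j)⁻¹
  have hc0 : ∀ i, (∏ j ∈ Finset.univ.erase i, l j) ≠ 0 := fun i =>
    Finset.prod_ne_zero_iff.mpr fun j _ => hl j
  let M : Fin (N + 1) → ℕ := fun i =>
    (Finset.univ.filter fun m : Ex N d => mon l m.1 ≠ c i).card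
  have h1 : (moved d l).card = ∑ i, M i := by
    rw [Finset.card_eq_sum_card_fiberwise (f := Prod.fst) (t := Finset.univ)
      (fun _ _ => Finset.mem_univ _)]
    refine Finset.sum_congr rfl fun i _ => ?_
    symm
    apply Finset.card_bij (fun m _ => (i, m))
    · intro m hm
      rw [Finset.mem_filter, mem_moved]
      refine ⟨fun h => (Finset.mem_filter.mp hm).2 ?_, rfl⟩
      exact eq_inv_of_mul_eq_one_right h
    · intro m _ m' _ h
      exact congrArg Prod.snd h
    · rintro ⟨i', m⟩ h
      rw [Finset.mem_filter, mem_moved] at h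
      obtain ⟨h2, rfl⟩ := h
      refine ⟨m, Finset.mem_filter.mpr ⟨Finset.mem_univ _, fun h3 => h2 ?_⟩, rfl⟩
      change _ * mon l m.1 = 1
      rw [h3]
      exact mul_inv_cancel₀ (hc0 _)
  have h2 : ∀ i, N ≤ M i := fun i => by
    have := card_ne_ge hd l hl hpq (c i)
    convert this
  have h3 : c p ≠ c q := by
    intro h
    have h4 := inv_injective h
    have h5 := Finset.mul_prod_erase Finset.univ l (Finset.mem_univ p)
    have h6 := Finset.mul_prod_erase Finset.univ l (Finset.mem_univ q)
    rw [← h6, h4] at h5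
    exact hpq (mul_right_cancel₀ (hc0 q) h5)
  have h4 : 2 * (N + 1) ≤ M p + M q := by
    refine (card_Ex_ge hN hd).trans (le_trans ?_ (Finset.card_union_le _ _))
    rw [← Finset.card_univ]
    apply Finset.card_le_card
    intro m _
    rw [Finset.mem_union, Finset.mem_filter, Finset.mem_filter]
    by_cases h : mon l m.1 = c p
    · exact Or.inr ⟨Finset.mem_univ _, fun h' => h3 (h.symm.trans h')⟩
    · exact Or.inl ⟨Finset.mem_univ _, h⟩
  have hq : q ∈ Finset.univ.erase p := Finset.mem_erase.mpr ⟨hpq'.symm, Finset.mem_univ _⟩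
  rw [h1, ← Finset.add_sum_erase _ _ (Finset.mem_univ p), ← Finset.add_sum_erase _ _ hq]
  have h5 : ((Finset.univ.erase p).erase q).card = N - 1 := by
    rw [Finset.card_erase_of_mem hq, Finset.card_erase_of_mem (Finset.mem_univ _),
      Finset.card_univ, Fintype.card_fin]
    rfl
  have h6 := Finset.card_nsmul_le_sum ((Finset.univ.erase p).erase q) M N (fun i _ => h2 i)
  rw [h5, smul_eq_mul] at h6
  obtain ⟨n, rfl⟩ : ∃ n, N = n + 1 := ⟨N - 1, by omega⟩
  rw [Nat.add_sub_cancel] at h6
  nlinarith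

theorem zero_of_moved {l : Fin (N + 1) → k} {f : Ix N d → k}
    (hf : actT (Matrix.diagonal l) f = f) {p : Ix N d} (hp : p ∈ moved d l) : f p = 0 := by
  have h1 := congrFun hf p
  rw [actT_diagonal] at h1
  by_contra h0
  apply (mem_moved l p).mp hp
  apply mul_right_cancel₀ h0
  rw [h1, one_mul]

theorem xi_diagonal (t : Fin (N + 1) → k) {f : Ix N d → k} {p : Ix N d} (hp : f p = 0) :
    Pool.Agent.Helper819.Dyn.xi (Matrix.diagonal t) f p = 0 := by
  have h1 := actT_eps (S := DualNumber k) DualNumber.eps DualNumber.eps_mul_eps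
    (Matrix.diagonal t) f p
  have h2 : oneEps (S := DualNumber k) DualNumber.eps (Matrix.diagonal t) =
      Matrix.diagonal fun i => 1 + DualNumber.eps * algebraMap k (DualNumber k) (t i) := by
    unfold oneEps
    ext1 i j
    by_cases h : i = j
    · subst h
      simp
    · simp [Matrix.diagonal_apply_ne _ h, Matrix.one_apply_ne h]
  rw [h2, actT_diagonal, hp, map_zero, mul_zero, zero_add] at h1
  have h3 := congrArg TrivSqZeroExt.snd h1
  simpa [TrivSqZeroExt.algebraMap_eq_inl] using h3.symm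

theorem exists_not_mem_T (hN : 2 ≤ N) (hd : 2 ≤ d) (l : Fin (N + 1) → k) (hl : ∀ j, l j ≠ 0)
    {p q : Fin (N + 1)} (hpq : l p ≠ l q) {f : Ix N d → k}
    (hf : actT (Matrix.diagonal l) f = f) :
    ∃ v : Ix N d → k, ∀ Y, actT (Matrix.diagonal l) v - v ≠ Pool.Agent.Helper819.Dyn.xi Y f := by
  classical
  by_contra hcon
  push Not at hcon
  let ψ : Matrix (Fin (N + 1)) (Fin (N + 1)) k →ₗ[k] (moved d l → k) :=
    (LinearMap.funLeft k k (Subtype.val : moved d l → Ix N d)).comp (xiL f)
  have hsurj : LinearMap.range ψ = ⊤ := by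
    rw [eq_top_iff, ← (Pi.basisFun k (moved d l)).span_eq, Submodule.span_le]
    rintro _ ⟨s, rfl⟩
    obtain ⟨Y, hY⟩ := hcon (Pi.single s.1 1)
    have hs := sub_ne_zero.mpr ((mem_moved l s.1).mp s.2)
    refine ⟨((∏ j ∈ Finset.univ.erase s.1.1, l j) * mon l s.1.2.1 - 1)⁻¹ • Y, ?_⟩
    rw [map_smul]
    funext s'
    change _ * Pool.Agent.Helper819.Dyn.xi Y f s'.1 = _
    rw [← hY, Pi.sub_apply, actT_diagonal, Pi.basisFun_apply]
    by_cases h : s' = s
    · subst h
      rw [Pi.single_eq_same, Pi.single_eq_same, mul_one]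
      exact inv_mul_cancel₀ hs
    · rw [Pi.single_eq_of_ne h, Pi.single_eq_of_ne (fun h' => h (Subtype.ext h'))]
      simp
  have hker : LinearMap.range (Matrix.diagonalLinearMap (Fin (N + 1)) k k) ≤ LinearMap.ker ψ := by
    rintro _ ⟨t, rfl⟩
    rw [LinearMap.mem_ker]
    funext s
    exact xi_diagonal t (zero_of_moved hf s.2)
  have h1 := LinearMap.finrank_range_add_finrank_ker ψ
  have h2 := Submodule.finrank_mono hker
  rw [LinearMap.finrank_range_of_inj (fun _ _ h => Matrix.diagonal_injective h),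
    Module.finrank_fintype_fun_eq_card, Fintype.card_fin] at h2
  rw [hsurj, finrank_top, Module.finrank_fintype_fun_eq_card, Fintype.card_coe,
    Module.finrank_matrix, Fintype.card_fin, Module.finrank_self] at h1
  have h3 := card_moved hN hd l hl hpq
  nlinarith

/-- index set of the families -/
abbrev FI (N d : ℕ) : Type :=
  {S : Finset (Ix N d) // (N + 1) * N + 2 ≤ S.card} × (Fin (N + 1) → Fin (N + 1))

/-- parameters of the families -/
abbrev FP (x : FI N d) : Type := {p : Ix N d // p ∉ x.1.1} ⊕ (Σ i : Fin (N + 1), {j // j ≠ x.2 i})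

open Classical in
theorem card_FP (x : FI N d) : Fintype.card (FP x) + 2 ≤ Fintype.card (Ix N d) := by
  rw [Fintype.card_sum, Fintype.card_sigma, Fintype.card_subtype_compl, Fintype.card_coe]
  have h1 : ∀ i : Fin (N + 1), Fintype.card {j // j ≠ x.2 i} = N := by
    intro i
    rw [Fintype.card_subtype_compl, Fintype.card_subtype_eq, Fintype.card_fin]
    rfl
  rw [Finset.sum_congr rfl fun i _ => h1 i, Finset.sum_const, Finset.card_univ, Fintype.card_fin,
    smul_eq_mul]
  have h2 := x.1.2
  have h3 := Finset.card_le_univ x.1.1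
  omega

open Classical in
/-- the matrix of a family -/
def famA (k : Type) [Field k] (x : FI N d) :
    Matrix (Fin (N + 1)) (Fin (N + 1)) (MvPolynomial (FP x) k) :=
  Matrix.of fun i j => if h : j = x.2 i then 1 else X (Sum.inr ⟨i, j, h⟩)

open Classical in
/-- the tuple of a family -/
def famG (k : Type) [Field k] (x : FI N d) : Ix N d → MvPolynomial (FP x) k :=
  fun p => if h : p ∈ x.1.1 then 0 else X (Sum.inl ⟨p, h⟩)

/-- the families -/
def fam (k : Type) [Field k] (x : FI N d) : MvPolynomial (Ix N d) k →ₐ[k] MvPolynomial (FP x) k :=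
  aeval (actT (famA k x) (famG k x))

theorem eval_fam (x : FI N d) (y : FP x → k) (P : MvPolynomial (Ix N d) k) :
    eval y (fam k x P) =
      eval (actT ((famA k x).map (eval y)) (fun p => eval y (famG k x p))) P := by
  unfold fam
  rw [aeval_eq_bind₁, Pool.Agent.Helper819.Zar.eval_bind]
  have h1 : (fun i => eval y (actT (famA k x) (famG k x) i)) =
      actT ((famA k x).map (eval y)) (fun p => eval y (famG k x p)) :=
    funext fun s => map_actT (eval y) (famA k x) (famG k x) s
  rw [h1]

theorem exists_diag' [IsAlgClosed k] [CharZero k] (hd : 2 ≤ d) {g : Ix N d → k}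
    (hg : NZ (tup g)) {A : Matrix (Fin (N + 1)) (Fin (N + 1)) k} (hA : A.det ≠ 0)
    (hAg : actT A g = g) (hs : ¬ ∃ a : k, A = a • 1) :
    ∃ (β : Matrix (Fin (N + 1)) (Fin (N + 1)) k) (l : Fin (N + 1) → k) (p q : Fin (N + 1)),
      β.det ≠ 0 ∧ (∀ j, l j ≠ 0) ∧ l p ≠ l q ∧
        actT (Matrix.diagonal l) (actT β g) = actT β g := by
  obtain ⟨β, l, hβ, hAβ⟩ := exists_diag hd hg A hA hAg
  have hl : ∀ j, l j ≠ 0 := by
    intro j hj
    have h1 := congrArg Matrix.det hAβ
    rw [Matrix.det_mul, Matrix.det_mul, Matrix.det_diagonal,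
      Finset.prod_eq_zero (Finset.mem_univ j) hj, mul_zero] at h1
    exact mul_ne_zero hA hβ h1
  have hpq : ∃ p q, l p ≠ l q := by
    by_contra hcon
    push Not at hcon
    apply hs
    refine ⟨l 0, ?_⟩
    have h1 : Matrix.diagonal l = l 0 • (1 : Matrix (Fin (N + 1)) (Fin (N + 1)) k) := by
      rw [Matrix.smul_one_eq_diagonal]
      congr 1
      funext j
      exact hcon j 0
    rw [h1, Matrix.mul_smul, Matrix.mul_one] at hAβ
    have h2 := Matrix.mul_nonsing_inv β (isUnit_iff_ne_zero.mpr hβ)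
    rw [← Matrix.mul_one A, ← h2, ← Matrix.mul_assoc, hAβ, Matrix.smul_mul]
  obtain ⟨p, q, hpq⟩ := hpq
  refine ⟨β, l, p, q, hβ, hl, hpq, ?_⟩
  rw [actT_actT, ← hAβ, ← actT_actT, hAg]

theorem mem_fam [IsAlgClosed k] [CharZero k] (hN : 2 ≤ N) (hd : 2 ≤ d) {g : Ix N d → k}
    (hg : NZ (tup g)) {A : Matrix (Fin (N + 1)) (Fin (N + 1)) k} (hA : A.det ≠ 0)
    (hAg : actT A g = g) (hs : ¬ ∃ a : k, A = a • 1) :
    ∃ x : FI N d, ∀ P, fam k x P = 0 → eval g P = 0 := by
  classical
  obtain ⟨β, l, p, q, hβ, hl, hpq, hfix⟩ := exists_diag' hd hg hA hAg hs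
  have hγ : (β⁻¹).det ≠ 0 := by
    rw [Matrix.det_nonsing_inv, Ring.inverse_eq_inv']
    exact inv_ne_zero hβ
  have hrow : ∀ i, ∃ j, β⁻¹ i j ≠ 0 := by
    intro i
    by_contra hcon
    push Not at hcon
    exact hγ (Matrix.det_eq_zero_of_row_eq_zero i hcon)
  choose π hπ using hrow
  let x : FI N d := (⟨moved d l, card_moved hN hd l hl hpq⟩, π)
  let t : Fin (N + 1) → k := fun i => β⁻¹ i (π i)
  let γ : Matrix (Fin (N + 1)) (Fin (N + 1)) k := Matrix.of fun i j => (t i)⁻¹ * β⁻¹ i j
  let g2 : Ix N d → k := actT (Matrix.diagonal t) (actT β g)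
  have h1 : Matrix.diagonal t * γ = β⁻¹ := by
    ext i j
    rw [Matrix.diagonal_mul]
    change t i * ((t i)⁻¹ * β⁻¹ i j) = _
    rw [← mul_assoc, mul_inv_cancel₀ (hπ i), one_mul]
  have h2 : actT γ g2 = g := by
    change actT γ (actT (Matrix.diagonal t) (actT β g)) = g
    rw [actT_actT, h1, actT_actT, Matrix.mul_nonsing_inv β (isUnit_iff_ne_zero.mpr hβ), actT_one]
  let y : FP x → k := Sum.elim (fun p => g2 p.1) (fun s => γ s.1 s.2.1)
  refine ⟨x, fun P hP => ?_⟩
  have h3 := eval_fam x y P
  have h4 : (famA k x).map (eval y) = γ := by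
    ext i j
    rw [Matrix.map_apply]
    unfold famA
    rw [Matrix.of_apply]
    split_ifs with h
    · rw [map_one, h]
      exact (inv_mul_cancel₀ (hπ i)).symm
    · rw [eval_X]
      rfl
  have h5 : (fun p => eval y (famG k x p)) = g2 := by
    funext p
    unfold famG
    split_ifs with h
    · rw [map_zero]
      change 0 = actT (Matrix.diagonal t) (actT β g) p
      rw [actT_diagonal, zero_of_moved hfix h, mul_zero]
    · rw [eval_X]
      rfl
  rw [hP, map_zero, h4, h5, h2] at h3
  exact h3.symm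

end count

end

end Pool.Agent.H887Z.Mod
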