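import Mathlib

/-!
The moduli space of degree `d` endomorphisms of projective `N`-space over an algebraically closed
field `k`, as the spectrum of the ring of invariant regular functions.
-/

open MvPolynomial

namespace Pool.Agent.H887Z.Mod

noncomputable section

/-- `(N+1)`-tuples of polynomials in `N+1` variables. -/
abbrev Tup (k : Type) [Field k] (N : ℕ) : Type := Fin (N + 1) → MvPolynomial (Fin (N + 1)) k

/-- The tuples `(f_0, …, f_N)` of forms of degree `d` with no common zero except the origin: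
the affine cone over `End_d^N(k)`. -/
def End (k : Type) [Field k] (N d : ℕ) : Type :=
  {F : Tup k N // (∀ i, (F i).IsHomogeneous d) ∧
    ∀ x : Fin (N + 1) → k, (∀ i, eval x (F i) = 0) → x = 0}

/-- The coordinate tuple of `φ⁻¹ ∘ F ∘ φ`. -/
def conj {k : Type} [Field k] {N : ℕ} (φ : GL (Fin (N + 1)) k) (F : Tup k N) : Tup k N :=
  fun i => ∑ j, C ((↑(φ⁻¹) : Matrix (Fin (N + 1)) (Fin (N + 1)) k) i j) *
    bind₁ (fun l => ∑ m, C ((φ : Matrix (Fin (N + 1)) (Fin (N + 1)) k) l m) * X m) (F j)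

/-- Homogeneous coordinates of `ℙ^ν`: a component `i` and an exponent vector of degree `d`. -/
abbrev Coord (N d : ℕ) : Type :=
  Fin (N + 1) × {α : Fin (N + 1) →₀ ℕ // α ∈ Finset.finsuppAntidiag Finset.univ d}

/-- The coefficients of a tuple, i.e. its homogeneous coordinates in `ℙ^ν`. -/
def coeffs {k : Type} [Field k] {N d : ℕ} (F : End k N d) : Coord N d → k :=
  fun p => coeff p.2.1 (F.1 p.1)

/-- `h` is a regular function on the open subset `End_d^N` of `ℙ^ν`: near every point it is a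
quotient `P / Q` of two forms of the same degree in the coefficients. -/
def IsRegularFun {k : Type} [Field k] {N d : ℕ} (h : End k N d → k) : Prop :=
  ∀ F : End k N d, ∃ (m : ℕ) (P Q : MvPolynomial (Coord N d) k),
    P.IsHomogeneous m ∧ Q.IsHomogeneous m ∧ eval (coeffs F) Q ≠ 0 ∧
    ∀ G : End k N d, eval (coeffs G) Q ≠ 0 → h G = eval (coeffs G) P / eval (coeffs G) Q

/-- `h` is invariant under conjugation. -/
def IsInvariant {k : Type} [Field k] {N d : ℕ} (h : End k N d → k) : Prop :=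
  ∀ (φ : GL (Fin (N + 1)) k) (F G : End k N d), G.1 = conj φ F.1 → h G = h F

/-- The ring `k[End_d^N]^{PGL_{N+1}}` of conjugation invariant regular functions;
`M_d^N` is its prime spectrum. -/
def Inv (k : Type) [Field k] (N d : ℕ) : Subalgebra k (End k N d → k) where
  carrier := {h | IsRegularFun h ∧ IsInvariant h}
  mul_mem' := by
    rintro a b ⟨ha, ha'⟩ ⟨hb, hb'⟩
    refine ⟨fun F => ?_, fun φ F G h => ?_⟩
    · obtain ⟨m, P, Q, hP, hQ, h0, h1⟩ := ha F
      obtain ⟨m', P', Q', hP', hQ', h0', h2⟩ := hb F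
      refine ⟨m + m', P * P', Q * Q', hP.mul hP', hQ.mul hQ',
        by rw [map_mul]; exact mul_ne_zero h0 h0', fun G hne => ?_⟩
      rw [map_mul] at hne
      rw [Pi.mul_apply, h1 G (left_ne_zero_of_mul hne), h2 G (right_ne_zero_of_mul hne),
        map_mul, map_mul, div_mul_div_comm]
    · rw [Pi.mul_apply, Pi.mul_apply, ha' φ F G h, hb' φ F G h]
  add_mem' := by
    rintro a b ⟨ha, ha'⟩ ⟨hb, hb'⟩
    refine ⟨fun F => ?_, fun φ F G h => ?_⟩
    · obtain ⟨m, P, Q, hP, hQ, h0, h1⟩ := ha F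
      obtain ⟨m', P', Q', hP', hQ', h0', h2⟩ := hb F
      refine ⟨m + m', P * Q' + Q * P', Q * Q', (hP.mul hQ').add (hQ.mul hP'), hQ.mul hQ',
        by rw [map_mul]; exact mul_ne_zero h0 h0', fun G hne => ?_⟩
      rw [map_mul] at hne
      rw [Pi.add_apply, h1 G (left_ne_zero_of_mul hne), h2 G (right_ne_zero_of_mul hne),
        map_add, map_mul, map_mul, map_mul,
        div_add_div _ _ (left_ne_zero_of_mul hne) (right_ne_zero_of_mul hne)]
    · rw [Pi.add_apply, Pi.add_apply, ha' φ F G h, hb' φ F G h]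
  algebraMap_mem' a := by
    refine ⟨fun F => ⟨0, C a, 1, isHomogeneous_C _ _, isHomogeneous_one _ _,
      by rw [map_one]; exact one_ne_zero, fun G _ => ?_⟩, fun _ _ _ _ => rfl⟩
    rw [map_one, eval_C, div_one]
    rfl

/-- The point `[F]` of `M_d^N = Spec (Inv k N d)`: the invariant functions vanishing at `F`. -/
def pt {k : Type} [Field k] {N d : ℕ} (F : End k N d) : PrimeSpectrum (Inv k N d) :=
  ⟨RingHom.ker ((Pi.evalRingHom (fun _ : End k N d => k) F).comp (Inv k N d).val.toRingHom),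
    RingHom.ker_isPrime _⟩

/-- `Aut(F) ≠ 1`: some non-scalar invertible matrix `φ` has `φ⁻¹ ∘ F ∘ φ = c F` with `c ≠ 0`. -/
def HasNontrivialAut {k : Type} [Field k] {N d : ℕ} (F : End k N d) : Prop :=
  ∃ (φ : GL (Fin (N + 1)) k) (c : kˣ), conj φ F.1 = (fun i => C (c : k) * F.1 i) ∧
    ¬ ∃ a : k, (φ : Matrix (Fin (N + 1)) (Fin (N + 1)) k) = a • 1

end

end Pool.Agent.H887Z.Mod
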