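import Pool.Agent.H887Z.Mod.Slice
import Pool.Agent.H887Z.Mod.Count

/-!
Differentials of invariant functions.
-/

open MvPolynomial

namespace Pool.Agent.H887Z.Mod

open Pool.Agent.Helper819.Gr Pool.Agent.Helper819.Dyn

noncomputable section

set_option linter.unusedSectionVars false

variable {k : Type} [Field k] {N d : ℕ}

/-- first order expansion in the direction of a coordinate -/
def dmap {σ R : Type} [CommRing R] [Algebra k R] (α : MvPolynomial σ k →ₐ[k] R) (p : σ) :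
    MvPolynomial σ k →ₐ[k] DualNumber R where
  toFun q := TrivSqZeroExt.inl (α q) + TrivSqZeroExt.inr (α (pderiv p q))
  map_one' := by
    apply TrivSqZeroExt.ext <;> simp
  map_mul' q q' := by
    apply TrivSqZeroExt.ext
    · simp
    · simp
      ring
  map_zero' := by
    apply TrivSqZeroExt.ext <;> simp
  map_add' q q' := by
    apply TrivSqZeroExt.ext <;> simp
  commutes' a := by
    apply TrivSqZeroExt.ext
    · simp [TrivSqZeroExt.algebraMap_eq_inl']
    · simp [TrivSqZeroExt.algebraMap_eq_inl']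

theorem fst_dmap {σ R : Type} [CommRing R] [Algebra k R] (α : MvPolynomial σ k →ₐ[k] R) (p : σ)
    (q : MvPolynomial σ k) : (dmap α p q).fst = α q := by
  change (TrivSqZeroExt.inl (α q) + TrivSqZeroExt.inr (α (pderiv p q)) : DualNumber R).fst = _
  simp

theorem snd_dmap {σ R : Type} [CommRing R] [Algebra k R] (α : MvPolynomial σ k →ₐ[k] R) (p : σ)
    (q : MvPolynomial σ k) : (dmap α p q).snd = α (pderiv p q) := by
  change (TrivSqZeroExt.inl (α q) + TrivSqZeroExt.inr (α (pderiv p q)) : DualNumber R).snd = _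
  simp

namespace RD

variable [IsAlgClosed k] (𝓡 : RD k N d) (hd : 1 ≤ d)

/-- the coordinate ring of the complement of the resultant locus -/
abbrev RR : Type := Localization.Away 𝓡.D

/-- the localization map -/
def al : MvPolynomial (Ix N d) k →ₐ[k] 𝓡.RR := IsScalarTower.toAlgHom k _ _

theorem al_D : IsUnit (𝓡.al 𝓡.D) := IsLocalization.Away.algebraMap_isUnit 𝓡.D

theorem dmap_D (p : Ix N d) : IsUnit (dmap 𝓡.al p 𝓡.D) := by
  rw [TrivSqZeroExt.isUnit_iff_isUnit_fst, fst_dmap]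
  exact 𝓡.al_D

/-- an invariant function as an element of the localization -/
def val : Inv k N d →ₐ[k] 𝓡.RR := 𝓡.lift hd 𝓡.al 𝓡.al_D

theorem fst_lift (p : Ix N d) (u : Inv k N d) :
    (𝓡.lift hd (dmap 𝓡.al p) (𝓡.dmap_D p) u).fst = 𝓡.val hd u := by
  obtain ⟨m, q, hq⟩ := 𝓡.exists_rep0 u
  symm
  apply 𝓡.liftFun_eq hd _ _ hq
  have h1 := congrArg TrivSqZeroExt.fst (𝓡.lift_spec hd _ (𝓡.dmap_D p) hq)
  rw [TrivSqZeroExt.fst_mul, TrivSqZeroExt.fst_pow, fst_dmap, fst_dmap] at h1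
  exact h1

/-- the differential of an invariant function -/
def der : Inv k N d →+ (Ix N d → 𝓡.RR) :=
  AddMonoidHom.mk' (fun u p => (𝓡.lift hd (dmap 𝓡.al p) (𝓡.dmap_D p) u).snd) (by
    intro u v
    funext p
    rw [map_add, TrivSqZeroExt.snd_add]
    rfl)

theorem der_apply (u : Inv k N d) (p : Ix N d) :
    𝓡.der hd u p = (𝓡.lift hd (dmap 𝓡.al p) (𝓡.dmap_D p) u).snd := rfl

theorem der_mul (u v : Inv k N d) :
    𝓡.der hd (u * v) = 𝓡.val hd u • 𝓡.der hd v + 𝓡.val hd v • 𝓡.der hd u := by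
  funext p
  rw [der_apply, map_mul, DualNumber.snd_mul, fst_lift, fst_lift, Pi.add_apply, Pi.smul_apply,
    Pi.smul_apply, der_apply, der_apply, smul_eq_mul, smul_eq_mul]
  ring

theorem der_algebraMap (a : k) : 𝓡.der hd (algebraMap k _ a) = 0 := by
  funext p
  rw [der_apply, AlgHom.commutes, TrivSqZeroExt.algebraMap_eq_inl', TrivSqZeroExt.snd_inl]
  rfl

theorem der_spec {u : Inv k N d} {m : ℕ} {q : MvPolynomial (Ix N d) k} (hq : 𝓡.Rep u m q)
    (p : Ix N d) : 𝓡.val hd u * 𝓡.al (pderiv p (𝓡.D ^ m)) + 𝓡.der hd u p * 𝓡.al 𝓡.D ^ m =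
      𝓡.al (pderiv p q) := by
  have h1 := congrArg TrivSqZeroExt.snd (𝓡.lift_spec hd _ (𝓡.dmap_D p) hq)
  rw [← map_pow, DualNumber.snd_mul, fst_lift, fst_dmap, snd_dmap, snd_dmap,
    map_pow 𝓡.al] at h1
  exact h1

/-- evaluation at a point -/
def ev (G : End k N d) : 𝓡.RR →ₐ[k] k :=
  IsLocalization.liftAlgHom (M := Submonoid.powers 𝓡.D)
    (f := (aeval (coeffs G : Ix N d → k) : MvPolynomial (Ix N d) k →ₐ[k] k)) (by
      rintro ⟨_, n, rfl⟩
      change IsUnit (aeval (coeffs G : Ix N d → k) (𝓡.D ^ n))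
      rw [map_pow, aeval_eq_eval_self]
      exact (isUnit_iff_ne_zero.mpr (𝓡.D_coeffs G)).pow n)

theorem ev_al (G : End k N d) (q : MvPolynomial (Ix N d) k) :
    𝓡.ev G (𝓡.al q) = eval (coeffs G : Ix N d → k) q := by
  rw [← aeval_eq_eval_self]
  exact IsLocalization.lift_eq _ q

theorem ev_val (G : End k N d) (u : Inv k N d) : 𝓡.ev G (𝓡.val hd u) = u.1 G :=
  𝓡.lift_eval hd _ _ G (𝓡.ev G) (𝓡.ev_al G) u

theorem exists_num (x : 𝓡.RR) : ∃ (n : ℕ) (a : MvPolynomial (Ix N d) k), ∀ G : End k N d,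
    𝓡.ev G x * eval (coeffs G : Ix N d → k) 𝓡.D ^ n = eval (coeffs G : Ix N d → k) a := by
  obtain ⟨n, a, h⟩ := IsLocalization.Away.surj 𝓡.D x
  refine ⟨n, a, fun G => ?_⟩
  rw [← 𝓡.ev_al, ← 𝓡.ev_al, ← map_pow, ← map_mul]
  exact congrArg _ h

/-- a covector field evaluated at a point -/
def dv (G : End k N d) (x : Ix N d → 𝓡.RR) : (Ix N d → k) →ₗ[k] k :=
  Fintype.linearCombination k fun p => 𝓡.ev G (x p)

theorem dv_apply (G : End k N d) (x : Ix N d → 𝓡.RR) (v : Ix N d → k) :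
    𝓡.dv G x v = ∑ p, v p * 𝓡.ev G (x p) := by
  unfold dv
  rw [Fintype.linearCombination_apply]
  rfl

theorem dv_spec (G : End k N d) {u : Inv k N d} {m : ℕ} {q : MvPolynomial (Ix N d) k}
    (hq : 𝓡.Rep u m q) (hu : u.1 G = 0) (v : Ix N d → k) :
    𝓡.dv G (𝓡.der hd u) v * eval (coeffs G : Ix N d → k) 𝓡.D ^ m =
      eval v (lf 1 q (coeffs G)) := by
  classical
  rw [eval_lf_one, dv_apply, Finset.sum_mul]
  refine Finset.sum_congr rfl fun p _ => ?_
  have h1 := congrArg (𝓡.ev G) (𝓡.der_spec hd hq p)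
  rw [map_add, map_mul, map_mul, map_pow (𝓡.ev G), ev_val, hu, zero_mul, zero_add, ev_al,
    ev_al] at h1
  rw [← h1, mul_assoc]

theorem nakayama (F : End k N d) {r : ℕ} (t : Fin r → Inv k N d)
    (ht1 : ∀ i, t i ∈ (pt F).asIdeal) (ht2 : ∀ u ∈ (pt F).asIdeal, ∃ s, s ∉ (pt F).asIdeal ∧
      s * u ∈ Ideal.span (Set.range t)) :
    ∃ s : 𝓡.RR, 𝓡.ev F s ≠ 0 ∧ ∀ u : Inv k N d, ∃ a : Fin r → 𝓡.RR,
      ∑ i, a i • 𝓡.der hd (t i) = s • 𝓡.der hd u := by
  have hnoeth : IsNoetherianRing 𝓡.RR :=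
    IsLocalization.isNoetherianRing (Submonoid.powers 𝓡.D) _ inferInstance
  let M : Submodule 𝓡.RR (Ix N d → 𝓡.RR) := Submodule.span _ (Set.range (𝓡.der hd))
  let M' : Submodule 𝓡.RR (Ix N d → 𝓡.RR) :=
    Submodule.span _ (Set.range fun i => 𝓡.der hd (t i))
  let 𝔫 : Ideal 𝓡.RR := RingHom.ker (𝓡.ev F)
  have hM : ∀ u, 𝓡.der hd u ∈ M := fun u => Submodule.subset_span ⟨u, rfl⟩
  have hn : ∀ (x : 𝓡.RR) (u : Inv k N d), 𝓡.ev F x = 0 → x • 𝓡.der hd u ∈ M' ⊔ 𝔫 • M :=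
    fun x u hx => Submodule.mem_sup_right (Submodule.smul_mem_smul hx (hM u))
  have hle : M ≤ M' ⊔ 𝔫 • M := by
    apply Submodule.span_le.mpr
    rintro _ ⟨u, rfl⟩
    have hu' : u - algebraMap k _ (u.1 F) ∈ (pt F).asIdeal := by
      rw [mem_pt]
      exact sub_self _
    obtain ⟨s, hs, hsu⟩ := ht2 _ hu'
    rw [mem_pt] at hs
    obtain ⟨c, hc⟩ := Ideal.mem_span_range_iff_exists_fun.mp hsu
    have h1 := congrArg (𝓡.der hd) hc
    rw [map_sum, der_mul, map_sub (𝓡.der hd), der_algebraMap, sub_zero] at h1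
    have h2 : ∑ i, 𝓡.der hd (c i * t i) ∈ M' ⊔ 𝔫 • M := by
      refine Submodule.sum_mem _ fun i _ => ?_
      rw [der_mul]
      refine Submodule.add_mem _ (Submodule.mem_sup_left (Submodule.smul_mem _ _
        (Submodule.subset_span ⟨i, rfl⟩))) (hn _ _ ?_)
      rw [ev_val]
      exact ht1 i
    have h3 : 𝓡.val hd s • 𝓡.der hd u ∈ M' ⊔ 𝔫 • M := by
      rw [h1] at h2
      refine (Submodule.add_mem_iff_left _ (hn _ _ ?_)).mp h2
      rw [ev_val]
      exact hu'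
    have h4 := Submodule.add_mem _ h3 (hn (algebraMap k _ (s.1 F) - 𝓡.val hd s) u (by
      rw [map_sub, ev_val, AlgHom.commutes]
      exact sub_self _))
    rw [← add_smul, add_sub_cancel] at h4
    have h5 := Submodule.smul_mem _ (algebraMap k 𝓡.RR (s.1 F)⁻¹) h4
    rw [smul_smul, ← map_mul, inv_mul_cancel₀ hs, map_one, one_smul] at h5
    exact h5
  obtain ⟨s, hs1, hs2⟩ := Submodule.exists_sub_one_mem_and_smul_le_of_fg_of_le_sup
    (IsNoetherian.noetherian M) le_rfl hle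
  refine ⟨s, ?_, fun u => ?_⟩
  · have h1 : 𝓡.ev F (s - 1) = 0 := hs1
    rw [map_sub, map_one, sub_eq_zero] at h1
    rw [h1]
    exact one_ne_zero
  · exact (Submodule.mem_span_range_iff_exists_fun _).mp
      (hs2 (Submodule.smul_mem_pointwise_smul _ _ _ (hM u)))

theorem det_pow_eq_one {f : Ix N d → k} (hf : eval f 𝓡.D ≠ 0)
    {A : Matrix (Fin (N + 1)) (Fin (N + 1)) k} (hA : actT A f = f) (m : ℕ) :
    detw (m • 𝓡.w) (fun _ => A) = 1 := by
  have h1 := 𝓡.D_semi (fun _ => A) f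
  change eval (actT A f) 𝓡.D = _ at h1
  rw [hA] at h1
  have h2 : detw 𝓡.w (fun _ => A) = 1 := by
    apply mul_right_cancel₀ hf
    rw [← h1, one_mul]
  rw [detw_smul, h2, one_pow]

theorem actT_of_scalar {g : Ix N d → k} (hg : NZ (tup g)) {a : k}
    (h : actT (a • (1 : Matrix (Fin (N + 1)) (Fin (N + 1)) k)) g = g) (v : Ix N d → k) :
    actT (a • (1 : Matrix (Fin (N + 1)) (Fin (N + 1)) k)) v = v := by
  rw [actT_scalar] at h ⊢
  have h0 : g ≠ 0 := by
    rintro rfl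
    have h1 := hg (fun _ => 1) (by
      intro i
      unfold tup
      simp)
    exact one_ne_zero (congrFun h1 0)
  obtain ⟨p, hp⟩ := Function.ne_iff.mp h0
  have h2 : a ^ (N + d) = 1 := by
    apply mul_right_cancel₀ hp
    rw [one_mul]
    exact congrFun h p
  rw [h2, one_smul]

end RD

end

end Pool.Agent.H887Z.Mod
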