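import Mathlib
import Pool.Agent.Helper819.Zar

/-!
Commutative algebra: generators of the maximal ideal, dimension bounds, generic points.
-/

open MvPolynomial

namespace Pool.Agent.H887Z.Mod

noncomputable section

/-- local generation of a prime ideal by `r` elements -/
def GenBy {A : Type} [CommRing A] (𝔪 : Ideal A) (r : ℕ) : Prop :=
  ∃ t : Fin r → A, (∀ i, t i ∈ 𝔪) ∧ ∀ u ∈ 𝔪, ∃ s, s ∉ 𝔪 ∧ s * u ∈ Ideal.span (Set.range t)

theorem genBy_of_regular {A : Type} [CommRing A] (𝔪 : Ideal A) [𝔪.IsPrime] (r : ℕ)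
    (hreg : IsRegularLocalRing (Localization.AtPrime 𝔪))
    (hdim : ringKrullDim A ≤ r) : GenBy 𝔪 r := by
  classical
  set L := Localization.AtPrime 𝔪 with hL
  have h1 : ringKrullDim L ≤ r := by
    rw [IsLocalization.AtPrime.ringKrullDim_eq_height 𝔪 L]
    exact (Ideal.height_le_ringKrullDim_of_ne_top Ideal.IsPrime.ne_top').trans hdim
  have h2 : (IsLocalRing.maximalIdeal L).spanFinrank ≤ r := by
    rw [← hreg.spanFinrank_maximalIdeal] at h1
    exact_mod_cast h1
  have hfg : (IsLocalRing.maximalIdeal L).FG := IsNoetherian.noetherian _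
  obtain ⟨S, hS1, hS2⟩ := Submodule.FG.exists_span_finset_card_eq_spanFinrank hfg
  have hcard : S.card ≤ r := by rw [hS1]; exact h2
  have hz : ∀ z : L, z ∈ IsLocalRing.maximalIdeal L → ∃ a : A, a ∈ 𝔪 ∧
      z ∈ Ideal.span {algebraMap A L a} := by
    intro z hz
    obtain ⟨⟨a, s⟩, rfl⟩ := IsLocalization.mk'_surjective 𝔪.primeCompl z
    refine ⟨a, (IsLocalization.AtPrime.mk'_mem_maximal_iff L 𝔪 a s).mp hz, ?_⟩
    rw [Ideal.mem_span_singleton']
    refine ⟨IsLocalization.mk' L 1 s, ?_⟩
    change IsLocalization.mk' L 1 s * algebraMap A L a = IsLocalization.mk' L a s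
    rw [mul_comm, IsLocalization.mul_mk'_eq_mk'_of_mul, mul_one]
  let z : Fin r → L := fun i => if h : (i : ℕ) < S.card then (S.equivFin.symm ⟨i, h⟩ : L) else 0
  have hzm : ∀ i, z i ∈ IsLocalRing.maximalIdeal L := by
    intro i
    by_cases h : (i : ℕ) < S.card
    · have : z i = (S.equivFin.symm ⟨i, h⟩ : L) := dif_pos h
      rw [this, ← hS2]
      exact Submodule.subset_span (S.equivFin.symm ⟨i, h⟩).2
    · have : z i = 0 := dif_neg h
      rw [this]
      exact Submodule.zero_mem _
  choose t ht1 ht2 using fun i => hz (z i) (hzm i)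
  refine ⟨t, ht1, fun u hu => ?_⟩
  have h3 : IsLocalRing.maximalIdeal L ≤ (Ideal.span (Set.range t)).map (algebraMap A L) := by
    rw [← hS2]
    apply Submodule.span_le.mpr
    intro y hy
    let i : Fin r := ⟨S.equivFin ⟨y, hy⟩, lt_of_lt_of_le (S.equivFin ⟨y, hy⟩).2 hcard⟩
    have hi : (i : ℕ) < S.card := (S.equivFin ⟨y, hy⟩).2
    have h4 : z i = y := by
      have : z i = (S.equivFin.symm ⟨i, hi⟩ : L) := dif_pos hi
      rw [this]
      have : (⟨i, hi⟩ : Fin S.card) = S.equivFin ⟨y, hy⟩ := rfl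
      rw [this, Equiv.symm_apply_apply]
    have h5 := ht2 i
    rw [h4] at h5
    refine (Ideal.span_le.mpr ?_) h5
    rintro _ rfl
    exact Ideal.mem_map_of_mem _ (Ideal.subset_span ⟨i, rfl⟩)
  have h6 : algebraMap A L u ∈ (Ideal.span (Set.range t)).map (algebraMap A L) :=
    h3 ((IsLocalization.AtPrime.to_map_mem_maximal_iff L 𝔪 u).mpr hu)
  obtain ⟨s, hs, hsu⟩ := (IsLocalization.algebraMap_mem_map_algebraMap_iff 𝔪.primeCompl L _ u).mp h6
  exact ⟨s, hs, hsu⟩

theorem regular_of_genBy {A : Type} [CommRing A] [IsNoetherianRing A] (𝔪 : Ideal A) [𝔪.IsPrime]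
    (r : ℕ) (hg : GenBy 𝔪 r) (hh : (r : ℕ∞) ≤ 𝔪.height) :
    IsRegularLocalRing (Localization.AtPrime 𝔪) := by
  classical
  set L := Localization.AtPrime 𝔪 with hL
  have : IsNoetherianRing L := IsLocalization.isNoetherianRing 𝔪.primeCompl L inferInstance
  apply IsRegularLocalRing.of_spanFinrank_maximalIdeal_le
  obtain ⟨t, ht1, ht2⟩ := hg
  have h1 : IsLocalRing.maximalIdeal L =
      Submodule.span L (Set.range fun i => algebraMap A L (t i)) := by
    apply le_antisymm
    · rw [← Localization.AtPrime.map_eq_maximalIdeal, Ideal.map_le_iff_le_comap]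
      intro u hu
      obtain ⟨s, hs, hsu⟩ := ht2 u hu
      have h2 : algebraMap A L (s * u) ∈
          Submodule.span L (Set.range fun i => algebraMap A L (t i)) := by
        have h3 := Ideal.mem_map_of_mem (algebraMap A L) hsu
        rw [Ideal.map_span, ← Set.range_comp] at h3
        exact h3
      rw [map_mul] at h2
      have hs' : IsUnit (algebraMap A L s) := IsLocalization.map_units L (⟨s, hs⟩ : 𝔪.primeCompl)
      exact (Ideal.unit_mul_mem_iff_mem _ hs').mp h2
    · apply Submodule.span_le.mpr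
      rintro _ ⟨i, rfl⟩
      exact (IsLocalization.AtPrime.to_map_mem_maximal_iff L 𝔪 (t i)).mpr (ht1 i)
  have h2 : (IsLocalRing.maximalIdeal L).spanFinrank ≤ r := by
    rw [h1]
    refine (Submodule.spanFinrank_span_le_ncard_of_finite (Set.finite_range _)).trans ?_
    rw [← Set.image_univ]
    refine (Set.ncard_image_le Set.finite_univ).trans ?_
    simp
  rw [IsLocalization.AtPrime.ringKrullDim_eq_height 𝔪 L]
  have h3 : (((IsLocalRing.maximalIdeal L).spanFinrank : ℕ∞)) ≤ 𝔪.height :=
    le_trans (by exact_mod_cast h2) hh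
  exact_mod_cast h3

theorem dim_le_of_inj {k A : Type} [Field k] [CommRing A] [Algebra k A] (r : ℕ)
    (ψ : A →ₐ[k] FractionRing (MvPolynomial (Fin r) k)) (hψ : Function.Injective ψ) :
    ringKrullDim A ≤ r := by
  refine iSup_le fun l => ?_
  obtain ⟨x, hx⟩ := Pool.Agent.Helper819.Zar.exists_indep (k := k) l.length l.toFun l.strictMono
  have hind : AlgebraicIndependent k (fun i => ψ (x i)) := by
    rw [algebraicIndependent_iff]
    intro f hf
    apply hx f
    have h1 : ψ (aeval x f) = 0 := by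
      rw [← hf]
      exact comp_aeval_apply x ψ f
    have h2 : aeval x f = 0 := hψ (by rw [h1, map_zero])
    rw [h2]
    exact Submodule.zero_mem _
  have h1 := hind.cardinalMk_le_trdeg
  have : Algebra.IsAlgebraic (MvPolynomial (Fin r) k) (FractionRing (MvPolynomial (Fin r) k)) :=
    IsLocalization.isAlgebraic _ (nonZeroDivisors (MvPolynomial (Fin r) k))
  have h2 := trdeg_add_eq k (MvPolynomial (Fin r) k) (A := FractionRing (MvPolynomial (Fin r) k))
  rw [trdeg_eq_zero (R := MvPolynomial (Fin r) k), add_zero, MvPolynomial.trdeg_of_isDomain] at h2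
  rw [← h2] at h1
  have h3 : l.length ≤ r := by simpa using h1
  exact_mod_cast h3

theorem exists_prime_factor {k σ : Type} [Field k] (J : MvPolynomial σ k) (f : σ → k)
    (hJ : eval f J = 0) : ∃ π : MvPolynomial σ k, π ∣ J ∧ eval f π = 0 ∧ (π = 0 ∨ Prime π) := by
  induction J using UniqueFactorizationMonoid.induction_on_prime with
  | h₁ => exact ⟨0, dvd_rfl, map_zero _, Or.inl rfl⟩
  | h₂ x hx => exact absurd hJ (hx.map (eval f)).ne_zero
  | h₃ a p _ hp ih =>
    rw [map_mul] at hJ
    rcases mul_eq_zero.mp hJ with h | h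
    · exact ⟨p, dvd_mul_right _ _, h, Or.inr hp⟩
    · obtain ⟨π, h1, h2, h3⟩ := ih h
      exact ⟨π, h1.mul_left _, h2, h3⟩

theorem exists_indep_mod {k σ : Type} [Field k] [Nonempty σ] (π : MvPolynomial σ k) (f : σ → k)
    (hπ : eval f π = 0) : ∃ p0 : σ, ∀ F : MvPolynomial {p // p ≠ p0} k,
      π ∣ rename Subtype.val F → F = 0 := by
  classical
  by_cases h0 : π = 0
  · obtain ⟨p0⟩ := ‹Nonempty σ›
    refine ⟨p0, fun F hF => ?_⟩
    rw [h0, zero_dvd_iff] at hF
    exact rename_injective _ Subtype.val_injective (by rw [hF, map_zero])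
  · have hv : π.vars ≠ ∅ := by
      intro hv
      rw [vars_eq_empty_iff_eq_C] at hv
      rw [hv, eval_C] at hπ
      rw [hπ, C_0] at hv
      exact h0 hv
    obtain ⟨p0, hp0⟩ := Finset.nonempty_iff_ne_empty.mpr hv
    refine ⟨p0, fun F hF => ?_⟩
    obtain ⟨h, hh⟩ := hF
    by_cases hh0 : h = 0
    · rw [hh0, mul_zero] at hh
      exact rename_injective _ Subtype.val_injective (by rw [hh, map_zero])
    · exfalso
      have h1 := degreeOf_mul_eq (n := p0) h0 hh0
      rw [← hh] at h1
      have h2 : p0 ∉ (rename Subtype.val F : MvPolynomial σ k).vars := by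
        intro h3
        obtain ⟨q, _, hq⟩ := mem_vars_rename _ _ h3
        exact q.2 hq
      rw [mem_vars_iff_degreeOf_ne_zero, not_not] at h2
      rw [mem_vars_iff_degreeOf_ne_zero] at hp0
      omega

/-- A point of a hypersurface near a given point avoiding finitely many families of
codimension two. -/
theorem avoid {k σ ι : Type} [Field k] [IsAlgClosed k] [Fintype σ] [Fintype ι] {τ : ι → Type}
    [∀ i, Fintype (τ i)] (φ : ∀ i, MvPolynomial σ k →ₐ[k] MvPolynomial (τ i) k)
    (hτ : ∀ i, Fintype.card (τ i) + 2 ≤ Fintype.card σ) [Nonempty σ]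
    (J s : MvPolynomial σ k) (f : σ → k) (hJ : eval f J = 0) (hs : eval f s ≠ 0) :
    ∃ g : σ → k, eval g J = 0 ∧ eval g s ≠ 0 ∧ ∀ i, ∃ p, φ i p = 0 ∧ eval g p ≠ 0 := by
  classical
  obtain ⟨π, hπJ, hπf, hπ⟩ := exists_prime_factor J f hJ
  obtain ⟨p0, hp0⟩ := exists_indep_mod π f hπf
  have hprime : (Ideal.span {π}).IsPrime := by
    rcases hπ with h | h
    · rw [h, Ideal.span_singleton_zero]
      exact Ideal.isPrime_bot
    · exact (Ideal.span_singleton_prime h.ne_zero).mpr h
  have hex : ∀ i, ∃ p, φ i p = 0 ∧ p ∉ Ideal.span {π} := by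
    intro i
    by_contra hcon
    push Not at hcon
    have hind : AlgebraicIndependent k (fun q : {p // p ≠ p0} => φ i (X q.1)) := by
      rw [algebraicIndependent_iff]
      intro F hF
      apply hp0 F
      rw [← Ideal.mem_span_singleton]
      apply hcon
      rw [← hF, rename_eq_aeval]
      exact comp_aeval_apply _ (φ i) F
    have h1 := hind.cardinalMk_le_trdeg
    rw [MvPolynomial.trdeg_of_isDomain] at h1
    have h2 : Fintype.card {p // p ≠ p0} ≤ Fintype.card (τ i) := by simpa using h1
    have h3 : Fintype.card {p // p ≠ p0} = Fintype.card σ - 1 := by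
      rw [Fintype.card_subtype_compl, Fintype.card_subtype_eq]
    have h4 := hτ i
    omega
  choose p hp1 hp2 using hex
  have hs' : s ∉ Ideal.span {π} := by
    intro h
    obtain ⟨h, rfl⟩ := Ideal.mem_span_singleton.mp h
    apply hs
    rw [map_mul, hπf, zero_mul]
  have hprod : s * ∏ i, p i ∉ Ideal.span {π} := by
    intro h
    rcases hprime.mem_or_mem h with h | h
    · exact hs' h
    · obtain ⟨i, _, hi⟩ := (Ideal.IsPrime.prod_mem_iff (hp := hprime)).mp h
      exact hp2 i hi
  rw [← hprime.radical, ← vanishingIdeal_zeroLocus_eq_radical (K := k), mem_vanishingIdeal_iff]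
    at hprod
  push Not at hprod
  obtain ⟨g, hg1, hg2⟩ := hprod
  have e : ∀ P : MvPolynomial σ k, aeval g P = eval g P := fun P => by
    rw [← coe_aeval_eq_eval]; rfl
  rw [e, map_mul, map_prod] at hg2
  have hgπ : eval g π = 0 := by
    rw [← e]
    exact (mem_zeroLocus_iff.mp hg1) π (Ideal.subset_span rfl)
  refine ⟨g, ?_, left_ne_zero_of_mul hg2, fun i => ⟨p i, hp1 i, ?_⟩⟩
  · obtain ⟨h, rfl⟩ := hπJ
    rw [map_mul, hgπ, zero_mul]
  · exact Finset.prod_ne_zero_iff.mp (right_ne_zero_of_mul hg2) i (Finset.mem_univ i)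

/-- killing the variables of index at least `i` -/
def kill (k : Type) [Field k] (r i : ℕ) : MvPolynomial (Fin r) k →ₐ[k] MvPolynomial (Fin r) k :=
  aeval fun j => if (j : ℕ) < i then 0 else X j

theorem height_origin (k : Type) [Field k] (r : ℕ) (𝔫 : Ideal (MvPolynomial (Fin r) k))
    [𝔫.IsPrime] (h : ∀ P, eval (0 : Fin r → k) P = 0 → P ∈ 𝔫) : (r : ℕ∞) ≤ 𝔫.height := by
  have hP : ∀ i, (RingHom.ker (kill k r i)).IsPrime := fun i => RingHom.ker_isPrime _
  have key : ∀ i, i ≤ r → (i : ℕ∞) ≤ (RingHom.ker (kill k r i)).height := by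
    intro i
    induction i with
    | zero => intro _; simp
    | succ i ih =>
      intro hi
      have h1 : RingHom.ker (kill k r i) < RingHom.ker (kill k r (i + 1)) := by
        apply lt_of_le_of_ne
        · intro P hP
          rw [RingHom.mem_ker] at hP ⊢
          have h2 : (kill k r (i + 1)).comp (kill k r i) = kill k r (i + 1) := by
            apply algHom_ext
            intro j
            simp only [kill, AlgHom.comp_apply, aeval_X]
            by_cases hj : (j : ℕ) < i
            · rw [if_pos hj, if_pos (by omega), map_zero]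
            · rw [if_neg hj, aeval_X]
          rw [← h2, AlgHom.comp_apply, hP, map_zero]
        · intro heq
          have h2 : (X ⟨i, by omega⟩ : MvPolynomial (Fin r) k) ∈
              RingHom.ker (kill k r (i + 1)) := by
            rw [RingHom.mem_ker]
            simp [kill]
          rw [← heq, RingHom.mem_ker] at h2
          simp [kill] at h2
      have := hP i
      have := hP (i + 1)
      have h2 := Ideal.height_add_one_le_of_lt_of_isPrime h1
      have h3 := ih (by omega)
      push_cast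
      exact le_trans (by gcongr) h2
  refine (key r le_rfl).trans (Ideal.height_mono fun P hP => h P ?_)
  rw [RingHom.mem_ker] at hP
  have h2 : ((aeval (0 : Fin r → k) : MvPolynomial (Fin r) k →ₐ[k] k)).comp (kill k r r) =
      aeval (0 : Fin r → k) := by
    apply algHom_ext
    intro j
    simp [kill]
  have h3 : aeval (0 : Fin r → k) P = 0 := by
    rw [← h2, AlgHom.comp_apply, hP, map_zero]
  rw [← h3, ← coe_aeval_eq_eval]
  rfl

end

end Pool.Agent.H887Z.Mod
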