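import Pool.Agent.H887Z.Mod.Slice

/-!
Orders of vanishing, leading forms, and a height bound.
-/

open MvPolynomial

namespace Pool.Agent.H887Z.Mod

open Pool.Agent.Helper819.Gr Pool.Agent.Helper819.Dyn

noncomputable section

set_option linter.unusedSectionVars false

variable {k : Type} [Field k] {σ τ : Type}

theorem aeval_homog_mem {R : Type} [CommRing R] [Algebra k R] (𝔫 : Ideal R) {Q : MvPolynomial σ k}
    {j : ℕ} (hQ : Q.IsHomogeneous j) (y : σ → R) (hy : ∀ p, y p ∈ 𝔫) : aeval y Q ∈ 𝔫 ^ j := by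
  classical
  rw [Q.as_sum, map_sum]
  refine Submodule.sum_mem _ fun m hm => ?_
  rw [aeval_monomial]
  apply Ideal.mul_mem_left
  have hdeg : ∑ i ∈ m.support, m i = j := by
    have : m.degree = j := by
      by_contra hne
      exact (mem_support_iff.mp hm) (hQ.coeff_eq_zero hne)
    rw [← this]
    rfl
  rw [← hdeg, ← Finset.prod_pow_eq_pow_sum]
  exact Ideal.prod_mem_prod fun i _ => Ideal.pow_mem_pow (hy i) _

theorem aeval_mul_hom {R : Type} [CommRing R] [Algebra k R] {Q : MvPolynomial σ k}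
    {j : ℕ} (hQ : Q.IsHomogeneous j) (r : R) (y : σ → R) :
    aeval (fun p => r * y p) Q = r ^ j * aeval y Q := by
  classical
  rw [Q.as_sum, map_sum, map_sum, Finset.mul_sum]
  refine Finset.sum_congr rfl fun m hm => ?_
  have hdeg : ∑ i ∈ m.support, m i = j := by
    have : m.degree = j := by
      by_contra hne
      exact (mem_support_iff.mp hm) (hQ.coeff_eq_zero hne)
    rw [← this]
    rfl
  rw [aeval_monomial, aeval_monomial, ← hdeg, ← Finset.prod_pow_eq_pow_sum]
  unfold Finsupp.prod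
  simp only [mul_pow]
  rw [Finset.prod_mul_distrib]
  ring

theorem ord_mem_pow {M : ℕ} [Infinite k] {P : MvPolynomial σ k} {c : σ → k} (h : Ord M P c) :
    P ∈ (RingHom.ker (eval c)) ^ M := by
  set 𝔫 := RingHom.ker (eval c) with h𝔫
  let y : σ → MvPolynomial σ k := fun p => X p - C (c p)
  have hy : ∀ p, y p ∈ 𝔫 := by
    intro p
    rw [h𝔫, RingHom.mem_ker]
    change eval c (X p - C (c p)) = 0
    rw [map_sub, eval_X, eval_C, sub_self]
  have h1 : (tayl (fun p => (C (c p) : MvPolynomial σ k)) y P).eval 1 = P := by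
    rw [eval_tayl]
    have : (fun p => C (c p) + 1 * y p) = (X : σ → MvPolynomial σ k) := by
      funext p
      change C (c p) + 1 * (X p - C (c p)) = X p
      ring
    rw [this]
    exact aeval_X_left_apply P
  have h2 : ∀ i, (tayl (fun p => (C (c p) : MvPolynomial σ k)) y P).coeff i =
      aeval y (lf i P c) := fun i => (aeval_lf i P c y).symm
  rw [← h1, Polynomial.eval_eq_sum_range]
  refine Submodule.sum_mem _ fun i _ => ?_
  rw [one_pow, mul_one, h2]
  by_cases hi : i < M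
  · rw [h i hi, map_zero]
    exact Submodule.zero_mem _
  · exact Ideal.pow_le_pow_right (by omega) (aeval_homog_mem 𝔫 (lf_homog i P c) y hy)

theorem lf_aeval [Infinite k] {q : τ → MvPolynomial σ k} {f : σ → k} (hq : ∀ i, Ord 1 (q i) f)
    {L : MvPolynomial τ k} {j : ℕ} (hL : L.IsHomogeneous j) :
    Ord j (aeval q L) f ∧
      ∀ v, eval v (lf j (aeval q L) f) = eval (fun i => eval v (lf 1 (q i) f)) L := by
  have key : ∀ v : σ → k, tayl f v (aeval q L) =
      Polynomial.X ^ j * aeval (fun i => (tayl f v (q i)).divX) L := by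
    intro v
    rw [comp_aeval_apply, ← aeval_mul_hom hL]
    congr 2
    funext i
    have h1 := Polynomial.divX_mul_X_add (tayl f v (q i))
    rw [← eval_lf, hq i 0 (by omega), map_zero, Polynomial.C_0, add_zero, mul_comm] at h1
    exact h1.symm
  constructor
  · rw [ord_iff]
    intro i hi v
    rw [key, Polynomial.coeff_X_pow_mul', if_neg (by omega)]
  · intro v
    rw [eval_lf, key, Polynomial.coeff_X_pow_mul', if_pos le_rfl, Nat.sub_self,
      Polynomial.coeff_zero_eq_aeval_zero, comp_aeval_apply, aeval_eq_eval_self]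
    congr 2
    funext i
    rw [← Polynomial.coeff_zero_eq_aeval_zero, Polynomial.coeff_divX, eval_lf]

theorem exists_mul_mem [Finite σ] (𝔞 : Ideal (MvPolynomial σ k)) (f : σ → k)
    (D p : MvPolynomial σ k) (hD : eval f D ≠ 0)
    (h : ∀ M, ∃ L, D ^ L * p ∈ 𝔞 ⊔ (RingHom.ker (eval f)) ^ M) :
    ∃ a, eval f a ≠ 0 ∧ a * p ∈ 𝔞 := by
  set 𝔫 : Ideal (MvPolynomial σ k) := RingHom.ker (eval f) with h𝔫
  let q𝔞 := Ideal.Quotient.mk 𝔞
  let 𝔫1 : Ideal (MvPolynomial σ k ⧸ 𝔞) := 𝔫.map q𝔞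
  have hmem : ∀ M, p ∈ 𝔞 ⊔ 𝔫 ^ M := by
    intro M
    obtain ⟨L, hL⟩ := h M
    have hcop : 𝔫 ^ M ⊔ Ideal.span {D ^ L} = ⊤ := by
      apply Ideal.pow_sup_eq_top
      rw [Ideal.eq_top_iff_one]
      have h1 : (1 : MvPolynomial σ k) = (1 - C (eval f D ^ L)⁻¹ * D ^ L) +
          C (eval f D ^ L)⁻¹ * D ^ L := by ring
      rw [h1]
      refine Submodule.add_mem_sup ?_ (Ideal.mul_mem_left _ _ (Ideal.subset_span rfl))
      rw [h𝔫, RingHom.mem_ker, map_sub, map_one, map_mul, eval_C, map_pow,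
        inv_mul_cancel₀ (pow_ne_zero _ hD), sub_self]
    have h1 : (1 : MvPolynomial σ k) ∈ 𝔫 ^ M ⊔ Ideal.span {D ^ L} := by
      rw [hcop]; trivial
    obtain ⟨n, hn, u', hu', hnu⟩ := Submodule.mem_sup.mp h1
    obtain ⟨u, rfl⟩ := Ideal.mem_span_singleton'.mp hu'
    have h2 : p = u * (D ^ L * p) + n * p := by
      have : p = (n + u * D ^ L) * p := by rw [hnu, one_mul]
      conv_lhs => rw [this]
      ring
    rw [h2]
    exact Submodule.add_mem _ (Ideal.mul_mem_left _ _ hL)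
      (Submodule.mem_sup_right (Ideal.mul_mem_right _ _ hn))
  have hiInf : q𝔞 p ∈ (⨅ i : ℕ, 𝔫1 ^ i • ⊤ :
      Submodule (MvPolynomial σ k ⧸ 𝔞) (MvPolynomial σ k ⧸ 𝔞)) := by
    rw [Submodule.mem_iInf]
    intro M
    rw [smul_eq_mul, Ideal.mul_top]
    change _ ∈ (𝔫.map q𝔞) ^ M
    rw [← Ideal.map_pow]
    obtain ⟨a, ha, b, hb', hab⟩ := Submodule.mem_sup.mp (hmem M)
    rw [← hab, map_add, Ideal.Quotient.eq_zero_iff_mem.mpr ha, zero_add]
    exact Ideal.mem_map_of_mem _ hb'
  obtain ⟨r, hr⟩ := (Ideal.mem_iInf_smul_pow_eq_bot_iff 𝔫1 (q𝔞 p)).mp hiInf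
  obtain ⟨n', hn', hn2⟩ := (Ideal.mem_map_iff_of_surjective q𝔞
    Ideal.Quotient.mk_surjective).mp r.2
  refine ⟨1 - n', ?_, ?_⟩
  · rw [map_sub, map_one, (RingHom.mem_ker).mp hn', sub_zero]
    exact one_ne_zero
  · rw [← Ideal.Quotient.eq_zero_iff_mem, map_mul, map_sub, map_one]
    change (1 - q𝔞 n') * q𝔞 p = 0
    rw [hn2, sub_mul, one_mul]
    rw [smul_eq_mul] at hr
    rw [hr, sub_self]

/-- the ideal of the origin -/
def orig (k : Type) [Field k] (r : ℕ) : Ideal (MvPolynomial (Fin r) k) :=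
  RingHom.ker (eval (0 : Fin r → k))

instance (r : ℕ) : (orig k r).IsPrime := RingHom.ker_isPrime _

theorem height_ge {A : Type} [CommRing A] [IsNoetherianRing A] (r : ℕ) (𝔪 : Ideal A) [𝔪.IsPrime]
    (ψ : A →+* Localization.AtPrime (orig k r))
    (h1 : ∀ u, ψ u ∈ IsLocalRing.maximalIdeal (Localization.AtPrime (orig k r)) ↔ u ∈ 𝔪)
    (h2 : ∀ x ∈ orig k r, ∃ y ∈ orig k r ^ 2,
      algebraMap _ (Localization.AtPrime (orig k r)) (x - y) ∈ 𝔪.map ψ) :
    (r : ℕ∞) ≤ 𝔪.height := by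
  set O := Localization.AtPrime (orig k r) with hO
  have hnoeth : IsNoetherianRing O :=
    IsLocalization.isNoetherianRing (orig k r).primeCompl O inferInstance
  let _ : Algebra A O := ψ.toAlgebra
  have hlo : (IsLocalRing.maximalIdeal O).LiesOver 𝔪 := ⟨by
    ext u
    exact (h1 u).symm⟩
  have h3 := Ideal.height_le_height_add_of_liesOver 𝔪 (IsLocalRing.maximalIdeal O)
  have h4 : IsLocalRing.maximalIdeal O ≤ 𝔪.map ψ := by
    apply Submodule.le_of_le_smul_of_le_jacobson_bot (IsNoetherian.noetherian _)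
      (IsLocalRing.maximalIdeal_le_jacobson _)
    conv_lhs => rw [← Localization.AtPrime.map_eq_maximalIdeal]
    rw [Ideal.map_le_iff_le_comap]
    intro x hx
    obtain ⟨y, hy, hxy⟩ := h2 x hx
    rw [Ideal.mem_comap, ← sub_add_cancel x y, map_add]
    refine Submodule.add_mem_sup hxy ?_
    rw [smul_eq_mul, ← pow_two, ← Localization.AtPrime.map_eq_maximalIdeal, ← Ideal.map_pow]
    exact Ideal.mem_map_of_mem _ hy
  have h5 : 𝔪.map (algebraMap A O) = IsLocalRing.maximalIdeal O := by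
    refine le_antisymm ?_ h4
    rw [Ideal.map_le_iff_le_comap]
    intro u hu
    exact (h1 u).mpr hu
  have h6 : ((IsLocalRing.maximalIdeal O).map
      (Ideal.Quotient.mk (𝔪.map (algebraMap A O)))).height = 0 := by
    have h7 : (IsLocalRing.maximalIdeal O).map (Ideal.Quotient.mk (𝔪.map (algebraMap A O))) =
        ⊥ := by
      rw [← h5]
      exact Ideal.map_quotient_self _
    have hp : (𝔪.map (algebraMap A O)).IsPrime := by
      rw [h5]
      infer_instance
    rw [h7]
    exact Ideal.height_bot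
  rw [h6, add_zero, ← IsLocalization.height_under (orig k r).primeCompl,
    IsLocalization.AtPrime.under_maximalIdeal O (orig k r)] at h3
  exact (height_origin k r (orig k r) fun P hP => hP).trans h3

end

end Pool.Agent.H887Z.Mod
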