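import Pool.Agent.H887Z.Mod.Reg1
import Pool.Agent.H887Z.Mod.Der

/-!
Points without nontrivial automorphisms are regular.
-/

open MvPolynomial

namespace Pool.Agent.H887Z.Mod

open Pool.Agent.Helper819.Gr Pool.Agent.Helper819.Dyn

noncomputable section

set_option linter.unusedSectionVars false

variable {k : Type} [Field k] {N d : ℕ}

namespace RD

variable [IsAlgClosed k] [CharZero k] (𝓡 : RD k N d)

include 𝓡 in
theorem pt_eq' (hd : 1 ≤ d) {F G : End k N d} {A : Matrix (Fin (N + 1)) (Fin (N + 1)) k}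
    (hA : A.det ≠ 0) (hG : coeffs G = actT A (coeffs F)) : pt G = pt F := by
  apply PrimeSpectrum.ext
  ext h
  rw [mem_pt, mem_pt, 𝓡.inv_actT hd h hA hG]

/-- the ideal generated by the numerators -/
def ext (I : Ideal (Inv k N d)) : Ideal (MvPolynomial (Ix N d) k) :=
  Ideal.span {q | ∃ l u, 𝓡.Rep u l q ∧ u ∈ I}

variable {𝓡} in
theorem Rep.sum {τ : Type} (s : Finset τ) {u : τ → Inv k N d} {m : ℕ}
    {q : τ → MvPolynomial (Ix N d) k} (h : ∀ i ∈ s, 𝓡.Rep (u i) m (q i)) :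
    𝓡.Rep (∑ i ∈ s, u i) m (∑ i ∈ s, q i) := by
  intro F
  rw [map_sum, AddSubmonoidClass.coe_finsetSum, Finset.sum_apply, Finset.sum_mul]
  exact Finset.sum_congr rfl fun i hi => h i hi F

theorem sharp_mul {m l : ℕ} {q : MvPolynomial (Ix N d) k} (hq : 𝓡.Sm l q)
    (P : MvPolynomial (Ix N d) k) :
    Pool.Agent.Helper819.Gr.sharp (CA N d).toRAct ((m + l) • 𝓡.w) (P * q) =
      Pool.Agent.Helper819.Gr.sharp (CA N d).toRAct (m • 𝓡.w) P * q := by
  rw [add_smul]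
  exact sharp_mul_semi _ _ hq P

theorem sharp_mem (hd : 1 ≤ d) {I : Ideal (Inv k N d)} {P : MvPolynomial (Ix N d) k}
    (hP : P ∈ 𝓡.ext I) {W : ℕ} {u : Inv k N d}
    (hu : 𝓡.Rep u W (Pool.Agent.Helper819.Gr.sharp (CA N d).toRAct (W • 𝓡.w) P)) : u ∈ I := by
  obtain ⟨n, f, g, hfg⟩ := Submodule.mem_span_set'.mp hP
  have hg : ∀ i, ∃ l u, 𝓡.Rep u l (g i).1 ∧ u ∈ I := fun i => (g i).2
  choose l v hv hvI using hg
  set M := ∑ i, l i with hM
  have hlM : ∀ i, l i ≤ M := fun i =>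
    Finset.single_le_sum (f := l) (fun _ _ => Nat.zero_le _) (Finset.mem_univ i)
  have h1 := hu.shift M
  have h2 : 𝓡.D ^ M * Pool.Agent.Helper819.Gr.sharp (CA N d).toRAct (W • 𝓡.w) P = ∑ i,
      Pool.Agent.Helper819.Gr.sharp (CA N d).toRAct ((M + W - l i) • 𝓡.w) (𝓡.D ^ M * f i) *
        (g i).1 := by
    rw [mul_comm, ← 𝓡.sharp_mul (𝓡.D_pow M), ← hfg, Finset.sum_mul,
      Pool.Agent.Helper819.Gr.sharp_sum]
    refine Finset.sum_congr rfl fun i _ => ?_
    rw [← 𝓡.sharp_mul ((hv i).semi hd)]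
    congr 1
    · congr 1
      have := hlM i
      omega
    · rw [smul_eq_mul]
      ring
  rw [h2] at h1
  have h3 : 𝓡.Rep (∑ i, 𝓡.mk' hd (M + W - l i) _ (isSemi_sharp _ _ (𝓡.D ^ M * f i)) * v i)
      (M + W) (∑ i, Pool.Agent.Helper819.Gr.sharp (CA N d).toRAct ((M + W - l i) • 𝓡.w)
        (𝓡.D ^ M * f i) * (g i).1) := by
    refine Rep.sum _ fun i _ => ?_
    have h4 := (𝓡.rep_mk' hd (M + W - l i) _ (isSemi_sharp _ _ (𝓡.D ^ M * f i))).mul (hv i)
    rwa [Nat.sub_add_cancel (by have := hlM i; omega)] at h4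
  rw [h1.eq h3]
  exact Submodule.sum_mem _ fun i _ => Ideal.mul_mem_left _ _ (hvI i)

include 𝓡 in
theorem noeth (hd : 1 ≤ d) : IsNoetherianRing (Inv k N d) := by
  have hmono : StrictMono 𝓡.ext := by
    intro I I' h
    apply lt_of_le_of_ne
    · apply Ideal.span_mono
      rintro q ⟨l, u, h1, h2⟩
      exact ⟨l, u, h1, h.le h2⟩
    · intro heq
      apply h.not_ge
      intro u hu
      obtain ⟨m, q, hq⟩ := 𝓡.exists_rep0 u
      have h1 : q ∈ 𝓡.ext I := by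
        rw [heq]
        exact Ideal.subset_span ⟨m, u, hq, hu⟩
      apply 𝓡.sharp_mem hd h1 (W := m)
      rw [sharp_semi _ (hq.semi hd)]
      exact hq
  exact isNoetherian_mk hmono.wellFoundedGT

/-- local coordinates at a point -/
structure Co {f : Ix N d → k} (S : Sl f) where
  M : ℕ
  q : Fin S.r → MvPolynomial (Ix N d) k
  semi : ∀ i, 𝓡.Sm M (q i)
  ord : ∀ i, Ord 1 (q i) f
  lf : ∀ i v, eval v (lf 1 (q i) f) = eval f 𝓡.D ^ M * S.Λ v i

theorem exists_Co (hd : 2 ≤ d) {f : Ix N d → k} (hf : eval f 𝓡.D ≠ 0) (S : Sl f)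
    (hG : ∀ A : Matrix (Fin (N + 1)) (Fin (N + 1)) k, A.det ≠ 0 → actT A f = f →
      ∃ a : k, A = a • 1) : Nonempty (𝓡.Co S) := by
  classical
  have h1 := fun i : Fin S.r => 𝓡.lead hd hf 1 (lin ((LinearMap.proj i).comp S.Λ) X)
    (lin_homog _) (by
      intro Y v
      rw [eval_lin_X, eval_lin_X, LinearMap.comp_apply, LinearMap.comp_apply, map_add, S.Λξ,
        add_zero]) (by
      intro A hA hAG v
      obtain ⟨a, rfl⟩ := hG A hA hAG
      rw [actT_of_scalar ((𝓡.iff _).mp hf) hAG])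
  choose m q hq hord hlf using h1
  have hmM : ∀ i, m i ≤ ∑ i, m i := fun i =>
    Finset.single_le_sum (f := m) (fun _ _ => Nat.zero_le _) (Finset.mem_univ i)
  refine ⟨⟨∑ i, m i, fun i => 𝓡.D ^ (∑ i, m i - m i) * q i, fun i => ?_,
    fun i => (hord i).mul_left _, fun i v => ?_⟩⟩
  · have h2 := (𝓡.D_pow (∑ i, m i - m i)).mul (hq i)
    rwa [Nat.sub_add_cancel (hmM i)] at h2
  · rw [lf_mul_left (hord i), map_mul, eval_C, hlf, eval_lin_X, map_pow, ← mul_assoc, ← pow_add,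
      Nat.sub_add_cancel (hmM i)]
    rfl

namespace Co

variable {𝓡} {f : Ix N d → k} {S : Sl f} (T : 𝓡.Co S)

theorem step (hf : eval f 𝓡.D ≠ 0) {m : ℕ} {p : MvPolynomial (Ix N d) k} (hp : 𝓡.Sm m p)
    {j : ℕ} (hj : 1 ≤ j) (hord : Ord j p f) :
    ∃ (l : ℕ) (a : MvPolynomial (Ix N d) k), a ∈ Ideal.span (Set.range T.q) ∧
      𝓡.Sm (l + m) a ∧ Ord (j + 1) (𝓡.D ^ l * p - a) f := by
  classical
  have hinf : Infinite k := IsAlgClosed.instInfinite
  let L : MvPolynomial (Fin S.r) k :=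
    aeval (fun s => lin ((LinearMap.proj s).comp S.E) (X : Fin S.r → MvPolynomial (Fin S.r) k))
      (Pool.Agent.Helper819.Gr.lf j p f)
  have hL : L.IsHomogeneous j := by
    have := (lf_homog j p f).aeval
      (fun s => lin ((LinearMap.proj s).comp S.E) (X : Fin S.r → MvPolynomial (Fin S.r) k))
      (n := 1) (fun s => lin_homog _)
    rwa [one_mul] at this
  have hLe : ∀ y, eval y L = eval (S.E y) (Pool.Agent.Helper819.Gr.lf j p f) := by
    intro y
    change eval y (aeval _ _) = _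
    rw [aeval_eq_bind₁, Pool.Agent.Helper819.Zar.eval_bind]
    congr 2
    funext s
    rw [eval_lin_X]
    rfl
  have he : ∀ c : Ix N d → k, eval c (aeval T.q L) = eval (fun i => eval c (T.q i)) L := by
    intro c
    rw [aeval_eq_bind₁, Pool.Agent.Helper819.Zar.eval_bind]
  have hs : 𝓡.Sm (j * T.M) (aeval T.q L) := by
    intro A c
    rw [he, he]
    have h1 : (fun i => eval ((CA N d).act A c) (T.q i)) =
        detw (T.M • 𝓡.w) A • fun i => eval c (T.q i) := funext fun i => T.semi i A c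
    rw [h1, eval_smul_hom hL, mul_smul, detw_smul j]
  obtain ⟨ho, hl⟩ := lf_aeval T.ord hL
  refine ⟨j * T.M, (C (eval f 𝓡.D ^ m)⁻¹ * 𝓡.D ^ m) * aeval T.q L, ?_, ?_, ?_⟩
  · apply Ideal.mul_mem_left
    exact Ideal.pow_le_self (by omega)
      (aeval_homog_mem _ hL T.q fun i => Ideal.subset_span ⟨i, rfl⟩)
  · rw [mul_assoc, add_comm]
    exact ((𝓡.D_pow m).mul hs).C_mul _
  · intro i hi
    rcases Nat.lt_succ_iff_lt_or_eq.mp hi with hi' | rfl
    · exact ((hord.mul_left _).sub (ho.mul_left _)) i hi'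
    · apply MvPolynomial.funext
      intro v
      have h1 : (fun i => eval v (Pool.Agent.Helper819.Gr.lf 1 (T.q i) f)) =
          eval f 𝓡.D ^ T.M • S.Λ v := funext fun i => T.lf i v
      have h2 := lf_xi hp hord (fun _ => S.P v) (S.E (S.Λ v))
      change eval (S.E (S.Λ v) + Pool.Agent.Helper819.Dyn.xi (S.P v) f) _ = _ at h2
      rw [← S.span v] at h2
      rw [lf_sub, lf_mul_left hord, lf_mul_left ho, map_sub, map_mul, map_mul, eval_C, eval_C,
        hl, h1, eval_smul_hom hL, hLe, ← h2, map_mul, eval_C, map_pow, map_pow,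
        inv_mul_cancel₀ (pow_ne_zero _ hf), map_zero]
      ring

theorem approx (hf : eval f 𝓡.D ≠ 0) {m : ℕ} {p : MvPolynomial (Ix N d) k} (hp : 𝓡.Sm m p)
    (hp0 : eval f p = 0) (M : ℕ) :
    ∃ (L : ℕ) (a : MvPolynomial (Ix N d) k), a ∈ Ideal.span (Set.range T.q) ∧
      𝓡.Sm (L + m) a ∧ Ord (M + 1) (𝓡.D ^ L * p - a) f := by
  have hinf : Infinite k := IsAlgClosed.instInfinite
  induction M with
  | zero =>
    refine ⟨0, 0, Submodule.zero_mem _, IsSemi.zero, ?_⟩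
    rw [pow_zero, one_mul, sub_zero]
    exact ord_of_eval hp0
  | succ M ih =>
    obtain ⟨L, a, ha, hs, hord⟩ := ih
    obtain ⟨l, a', ha', hs', hord'⟩ := T.step hf (m := L + m)
      (IsSemi.sub ((𝓡.D_pow L).mul hp) hs) (by omega) hord
    refine ⟨l + L, 𝓡.D ^ l * a + a', Submodule.add_mem _ (Ideal.mul_mem_left _ _ ha) ha', ?_, ?_⟩
    · rw [add_assoc]
      exact IsSemi.add ((𝓡.D_pow l).mul hs) hs'
    · have h1 : 𝓡.D ^ (l + L) * p - (𝓡.D ^ l * a + a') = 𝓡.D ^ l * (𝓡.D ^ L * p - a) - a' := by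
        ring
      rw [h1]
      exact hord'

theorem compT_semi {m : ℕ} {p : MvPolynomial (Ix N d) k} (hp : 𝓡.Sm m p)
    (A : Mt Unit (N + 1) k) : Pool.Agent.Helper819.Gr.compT (CA N d).toRAct A p =
      C (detw (m • 𝓡.w) A) * p := by
  have hinf : Infinite k := IsAlgClosed.instInfinite
  apply MvPolynomial.funext
  intro c
  rw [Pool.Agent.Helper819.Gr.eval_compT, hp A c, map_mul, eval_C]

theorem exists_b (hd : 2 ≤ d) (hf : eval f 𝓡.D ≠ 0) {m : ℕ} {p : MvPolynomial (Ix N d) k}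
    (hp : 𝓡.Sm m p) (hp0 : eval f p = 0) :
    ∃ (L : ℕ) (b : MvPolynomial (Ix N d) k), b * p ∈ Ideal.span (Set.range T.q) ∧
      aeval (Pool.Agent.Helper819.Gr.orb (CA N d).toRAct f) (𝓡.D ^ L - b) = 0 := by
  have hinf : Infinite k := IsAlgClosed.instInfinite
  obtain ⟨a, ha, hap⟩ := exists_mul_mem (Ideal.span (Set.range T.q)) f 𝓡.D p hf (by
    intro M
    obtain ⟨L, a, ha, -, hord⟩ := T.approx hf hp hp0 M
    refine ⟨L, ?_⟩
    rw [← add_sub_cancel a (𝓡.D ^ L * p)]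
    exact Submodule.add_mem_sup ha (Ideal.pow_le_pow_right (Nat.le_succ M) (ord_mem_pow hord)))
  let J : Ideal (MvPolynomial (Ix N d) k) := (Ideal.span (Set.range T.q)).colon {p}
  have hJ : ∀ x, x ∈ J ↔ x * p ∈ Ideal.span (Set.range T.q) := fun x =>
    Submodule.mem_colon_singleton
  let I : Ideal (MvPolynomial (Ix N d) k) :=
    RingHom.ker (aeval (Pool.Agent.Helper819.Gr.orb (CA N d).toRAct f) :
      MvPolynomial (Ix N d) k →ₐ[k] _)
  have hrad : 𝓡.D ∈ (J ⊔ I).radical := by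
    rw [← vanishingIdeal_zeroLocus_eq_radical (K := k), mem_vanishingIdeal_iff]
    intro c hc
    by_contra hne
    rw [aeval_eq_eval_self] at hne
    have hz : ∀ x ∈ J ⊔ I, eval c x = 0 := by
      intro x hx
      have := (mem_zeroLocus_iff.mp hc) x hx
      rwa [aeval_eq_eval_self] at this
    obtain ⟨A, hA, hAc⟩ := 𝓡.closed_orbit hd hf hne fun P hP => hz P (Submodule.mem_sup_right hP)
    have hA' : (A⁻¹).det ≠ 0 := by
      rw [Matrix.det_nonsing_inv, Ring.inverse_eq_inv']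
      exact inv_ne_zero hA
    have hle : Ideal.span (Set.range T.q) ≤ (Ideal.span (Set.range T.q)).comap
        (Pool.Agent.Helper819.Gr.compT (CA N d).toRAct (fun _ => A⁻¹) :
          MvPolynomial (Ix N d) k →ₐ[k] _) := by
      rw [Ideal.span_le]
      rintro _ ⟨i, rfl⟩
      change Pool.Agent.Helper819.Gr.compT (CA N d).toRAct (fun _ => A⁻¹) (T.q i) ∈
        Ideal.span (Set.range T.q)
      rw [compT_semi (T.semi i)]
      exact Ideal.mul_mem_left _ _ (Ideal.subset_span ⟨i, rfl⟩)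
    have h5 : Pool.Agent.Helper819.Gr.compT (CA N d).toRAct (fun _ => A⁻¹) (a * p) ∈
        Ideal.span (Set.range T.q) := hle hap
    rw [map_mul, compT_semi hp, ← mul_assoc, ← hJ] at h5
    have h6 := hz _ (Submodule.mem_sup_left h5)
    rw [map_mul, eval_C, Pool.Agent.Helper819.Gr.eval_compT] at h6
    change eval (actT A⁻¹ c) a * _ = 0 at h6
    rw [← hAc, actT_actT, Matrix.mul_nonsing_inv _ (isUnit_iff_ne_zero.mpr hA), actT_one] at h6
    exact mul_ne_zero ha (detw_ne_zero _ _ fun _ => hA') h6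
  obtain ⟨L, hL⟩ := hrad
  obtain ⟨b, hb, i, hi, hbi⟩ := Submodule.mem_sup.mp hL
  refine ⟨L, b, (hJ b).mp hb, ?_⟩
  rw [← hbi, add_sub_cancel_left]
  exact hi

end Co

theorem genBy (hd : 2 ≤ d) (F : End k N d) {S : Sl (coeffs F : Ix N d → k)} (T : 𝓡.Co S) :
    GenBy (pt F).asIdeal S.r := by
  have hd1 : 1 ≤ d := by omega
  have hf := 𝓡.D_coeffs F
  refine ⟨fun i => 𝓡.mk' hd1 T.M (T.q i) (T.semi i), fun i => ?_, fun u hu => ?_⟩
  · rw [mem_pt]
    have h1 := 𝓡.rep_mk' hd1 T.M (T.q i) (T.semi i) F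
    rw [eval_of_ord (T.ord i)] at h1
    exact (mul_eq_zero.mp h1).resolve_right (pow_ne_zero _ hf)
  · rw [mem_pt] at hu
    obtain ⟨m, p, hp⟩ := 𝓡.exists_rep0 u
    obtain ⟨L, b, hb, hLb⟩ := T.exists_b hd hf (hp.semi hd1) (by rw [← hp F, hu, zero_mul])
    have h1 := 𝓡.rep_mk' hd1 L _ (isSemi_sharp (CA N d).toRAct (L • 𝓡.w) b)
    refine ⟨𝓡.mk' hd1 L _ (isSemi_sharp (CA N d).toRAct (L • 𝓡.w) b), fun h => ?_, ?_⟩
    · rw [mem_pt] at h
      have h2 := h1 F
      rw [h, zero_mul] at h2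
      have h3 := Pool.Agent.Helper819.Gr.sharp_add (CA N d).toRAct (L • 𝓡.w) (𝓡.D ^ L - b) b
      rw [sub_add_cancel, sharp_semi _ (𝓡.D_pow L)] at h3
      have h4 := congrArg (eval (coeffs F : Ix N d → k)) h3
      rw [map_add, ← h2, Pool.Agent.Helper819.Gr.eval_sharp, hLb,
        Pool.Agent.Helper819.Gr.rho_zero, add_zero, map_pow] at h4
      exact pow_ne_zero _ hf h4
    · refine 𝓡.sharp_mem hd1 (P := b * p) ?_ (W := L + m) ?_
      · refine (Ideal.span_le.mpr ?_) hb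
        rintro _ ⟨i, rfl⟩
        exact Ideal.subset_span ⟨T.M, _, 𝓡.rep_mk' hd1 T.M (T.q i) (T.semi i),
          Ideal.subset_span ⟨i, rfl⟩⟩
      · rw [𝓡.sharp_mul (hp.semi hd1)]
        exact h1.mul hp

theorem height_pt (hd : 1 ≤ d) (F : End k N d) {S : Sl (coeffs F : Ix N d → k)} (T : 𝓡.Co S) :
    (S.r : ℕ∞) ≤ (pt F).asIdeal.height := by
  classical
  have hinf : Infinite k := IsAlgClosed.instInfinite
  have hnoeth := 𝓡.noeth hd
  have hf := 𝓡.D_coeffs F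
  let φ : MvPolynomial (Ix N d) k →ₐ[k] Localization.AtPrime (orig k S.r) :=
    (IsScalarTower.toAlgHom k (MvPolynomial (Fin S.r) k) _).comp S.res
  have hres : ∀ q, S.res q ∈ orig k S.r ↔ eval (coeffs F : Ix N d → k) q = 0 := by
    intro q
    change eval 0 (S.res q) = 0 ↔ _
    rw [S.eval_res, map_zero, add_zero]
  have hφm : ∀ q, φ q ∈ IsLocalRing.maximalIdeal (Localization.AtPrime (orig k S.r)) ↔
      eval (coeffs F : Ix N d → k) q = 0 := by
    intro q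
    rw [← hres]
    exact IsLocalization.AtPrime.to_map_mem_maximal_iff _ (orig k S.r) _
  have hφ : IsUnit (φ 𝓡.D) := by
    by_contra h
    exact hf ((hφm _).mp h)
  have hψ : ∀ u, 𝓡.lift hd φ hφ u ∈
      IsLocalRing.maximalIdeal (Localization.AtPrime (orig k S.r)) ↔ u ∈ (pt F).asIdeal := by
    intro u
    obtain ⟨m, q, hq⟩ := 𝓡.exists_rep0 u
    rw [← Ideal.mul_unit_mem_iff_mem _ (hφ.pow m), 𝓡.lift_spec hd φ hφ hq, hφm, ← hq F, mem_pt,
      mul_eq_zero, or_iff_left (pow_ne_zero _ hf)]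
  apply height_ge S.r (pt F).asIdeal (𝓡.lift hd φ hφ).toRingHom hψ
  intro x hx
  let a : Fin S.r → k := fun i =>
    (eval (coeffs F : Ix N d → k) 𝓡.D ^ T.M)⁻¹ * eval 0 (pderiv i x)
  let P : MvPolynomial (Ix N d) k := ∑ i, C (a i) * T.q i
  have hP0 : eval (coeffs F : Ix N d → k) P = 0 := by
    rw [map_sum]
    exact Finset.sum_eq_zero fun i _ => by rw [map_mul, eval_of_ord (T.ord i), mul_zero]
  refine ⟨x - S.res P, ord_mem_pow fun i hi => ?_, ?_⟩
  · rcases Nat.lt_succ_iff_lt_or_eq.mp hi with hi' | rfl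
    · exact ord_of_eval (Submodule.sub_mem _ hx ((hres P).mpr hP0)) i hi'
    · apply MvPolynomial.funext
      intro y
      have h1 : tayl 0 y (S.res P) = tayl (coeffs F : Ix N d → k) (S.E y) P := by
        apply Polynomial.funext
        intro s
        rw [eval_tayl, eval_tayl, aeval_eq_eval_self, aeval_eq_eval_self, S.eval_res]
        have h2 : (fun p => (0 : Fin S.r → k) p + s * y p) = s • y := by
          funext p
          exact zero_add _
        rw [h2, map_smul]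
        rfl
      rw [lf_sub, map_sub, eval_lf _ (S.res P), h1, map_sum, Polynomial.finsetSum_coeff,
        eval_lf_one, map_zero, sub_eq_zero]
      refine Finset.sum_congr rfl fun i _ => ?_
      rw [← eval_lf, lf_mul_left (T.ord i), map_mul, eval_C, eval_C, T.lf, S.ΛE]
      change _ = (_⁻¹ * _) * _
      field_simp
  · rw [sub_sub_cancel]
    change φ P ∈ _
    rw [map_sum]
    refine Submodule.sum_mem _ fun i _ => ?_
    rw [map_mul, ← 𝓡.lift_spec hd φ hφ (𝓡.rep_mk' hd T.M (T.q i) (T.semi i))]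
    refine Ideal.mul_mem_left _ _ (Ideal.mul_mem_right _ _ (Ideal.mem_map_of_mem _ ?_))
    rw [mem_pt]
    have h1 := 𝓡.rep_mk' hd T.M (T.q i) (T.semi i) F
    rw [eval_of_ord (T.ord i)] at h1
    exact (mul_eq_zero.mp h1).resolve_right (pow_ne_zero _ hf)

include 𝓡 in
theorem exists_pt (hd : 1 ≤ d) (𝔪 : Ideal (Inv k N d)) (h𝔪 : 𝔪.IsMaximal) :
    ∃ F : End k N d, (pt F).asIdeal = 𝔪 := by
  have h1 : 𝓡.D ∉ (𝓡.ext 𝔪).radical := by
    rintro ⟨L, hL⟩
    apply h𝔪.ne_top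
    rw [Ideal.eq_top_iff_one]
    refine 𝓡.sharp_mem hd hL (W := L) ?_
    rw [sharp_semi _ (𝓡.D_pow L)]
    intro F
    rw [map_pow]
    exact one_mul _
  rw [← vanishingIdeal_zeroLocus_eq_radical (K := k), mem_vanishingIdeal_iff] at h1
  push Not at h1
  obtain ⟨c, hc, hcD⟩ := h1
  rw [aeval_eq_eval_self] at hcD
  refine ⟨𝓡.toEnd c hcD, (h𝔪.eq_of_le (pt _).isPrime.ne_top fun u hu => ?_).symm⟩
  obtain ⟨m, q, hq⟩ := 𝓡.exists_rep0 u
  have h2 := (mem_zeroLocus_iff.mp hc) q (Ideal.subset_span ⟨m, u, hq, hu⟩)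
  have h3 := hq (𝓡.toEnd c hcD)
  rw [aeval_eq_eval_self] at h2
  rw [coeffs_toEnd, h2] at h3
  exact (mul_eq_zero.mp h3).resolve_right (pow_ne_zero _ hcD)

include 𝓡 in
theorem orbit_of_pt (hd : 2 ≤ d) {F G : End k N d} (h : pt F = pt G) :
    ∃ A : Matrix (Fin (N + 1)) (Fin (N + 1)) k, A.det ≠ 0 ∧
      actT A (coeffs F : Ix N d → k) = coeffs G := by
  have hd1 : 1 ≤ d := by omega
  by_contra hcon
  let I : End k N d → Ideal (MvPolynomial (Ix N d) k) := fun F =>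
    RingHom.ker (aeval (Pool.Agent.Helper819.Gr.orb (CA N d).toRAct (coeffs F)) :
      MvPolynomial (Ix N d) k →ₐ[k] _)
  have hrad : 𝓡.D ∈ (I F ⊔ I G).radical := by
    rw [← vanishingIdeal_zeroLocus_eq_radical (K := k), mem_vanishingIdeal_iff]
    intro c hc
    by_contra hne
    rw [aeval_eq_eval_self] at hne
    have hz : ∀ x ∈ I F ⊔ I G, eval c x = 0 := by
      intro x hx
      have := (mem_zeroLocus_iff.mp hc) x hx
      rwa [aeval_eq_eval_self] at this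
    obtain ⟨A, hA, hAc⟩ := 𝓡.closed_orbit hd (𝓡.D_coeffs F) hne
      fun P hP => hz P (Submodule.mem_sup_left hP)
    obtain ⟨B, hB, hBc⟩ := 𝓡.closed_orbit hd (𝓡.D_coeffs G) hne
      fun P hP => hz P (Submodule.mem_sup_right hP)
    refine hcon ⟨A * B⁻¹, ?_, ?_⟩
    · rw [Matrix.det_mul, Matrix.det_nonsing_inv, Ring.inverse_eq_inv']
      exact mul_ne_zero hA (inv_ne_zero hB)
    · rw [← actT_actT, hAc, ← hBc, actT_actT,
        Matrix.mul_nonsing_inv _ (isUnit_iff_ne_zero.mpr hB), actT_one]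
  obtain ⟨L, hL⟩ := hrad
  obtain ⟨a, ha, b, hb, hab⟩ := Submodule.mem_sup.mp hL
  have ha' : aeval (Pool.Agent.Helper819.Gr.orb (CA N d).toRAct (coeffs F)) a = 0 := ha
  have hb' : aeval (Pool.Agent.Helper819.Gr.orb (CA N d).toRAct (coeffs G)) b = 0 := hb
  have h1 := 𝓡.rep_mk' hd1 L _ (isSemi_sharp (CA N d).toRAct (L • 𝓡.w) a)
  have h2 : 𝓡.mk' hd1 L _ (isSemi_sharp (CA N d).toRAct (L • 𝓡.w) a) ∈ (pt F).asIdeal := by
    have h3 := h1 F
    rw [Pool.Agent.Helper819.Gr.eval_sharp, ha', Pool.Agent.Helper819.Gr.rho_zero] at h3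
    exact (mul_eq_zero.mp h3).resolve_right (pow_ne_zero _ (𝓡.D_coeffs F))
  rw [h, mem_pt] at h2
  have h3 := h1 G
  rw [h2, zero_mul] at h3
  have h4 := Pool.Agent.Helper819.Gr.sharp_add (CA N d).toRAct (L • 𝓡.w) a b
  rw [hab, sharp_semi _ (𝓡.D_pow L)] at h4
  have h5 := congrArg (eval (coeffs G : Ix N d → k)) h4
  rw [map_add, ← h3, Pool.Agent.Helper819.Gr.eval_sharp, hb',
    Pool.Agent.Helper819.Gr.rho_zero, add_zero, map_pow] at h5
  exact pow_ne_zero _ (𝓡.D_coeffs G) h5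

end RD

theorem regular_of_free [IsAlgClosed k] [CharZero k] (hd : 2 ≤ d) (F : End k N d)
    (hF : ¬ HasNontrivialAut F) : IsRegularLocalRing (Localization.AtPrime (pt F).asIdeal) := by
  have hd1 : 1 ≤ d := by omega
  obtain ⟨𝓡⟩ := exists_RD (k := k) (N := N) hd1
  obtain ⟨S⟩ := exists_Sl hd ((𝓡.iff _).mp (𝓡.D_coeffs F))
  obtain ⟨T⟩ := 𝓡.exists_Co hd (𝓡.D_coeffs F) S (by
    intro A hA hAF
    by_contra hcon
    exact hF ((aut_iff hd1 F).mpr ⟨A, hA, hAF, hcon⟩))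
  have hnoeth := 𝓡.noeth hd1
  exact regular_of_genBy _ S.r (𝓡.genBy hd F T) (𝓡.height_pt hd1 F T)

theorem exists_pt [IsAlgClosed k] [CharZero k] (hd : 2 ≤ d) (𝔪 : Ideal (Inv k N d))
    (h𝔪 : 𝔪.IsMaximal) : ∃ F : End k N d, (pt F).asIdeal = 𝔪 := by
  have hd1 : 1 ≤ d := by omega
  obtain ⟨𝓡⟩ := exists_RD (k := k) (N := N) hd1
  exact 𝓡.exists_pt hd1 𝔪 h𝔪

theorem pt_eq_iff [IsAlgClosed k] [CharZero k] (hd : 2 ≤ d) (F G : End k N d) :
    pt F = pt G ↔ ∃ (φ : GL (Fin (N + 1)) k) (c : kˣ),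
      G.1 = fun i => C (c : k) * conj φ F.1 i := by
  have hd1 : 1 ≤ d := by omega
  obtain ⟨𝓡⟩ := exists_RD (k := k) (N := N) hd1
  constructor
  · intro h
    obtain ⟨A, hA, hAF⟩ := 𝓡.orbit_of_pt hd h
    have hu : IsUnit A := (Matrix.isUnit_iff_isUnit_det A).mpr (isUnit_iff_ne_zero.mpr hA)
    refine ⟨hu.unit, Units.mk0 A.det hA, ?_⟩
    funext i
    have h3 := conj_eq hu.unit F.1 i
    rw [IsUnit.unit_spec] at h3
    have h4 := congrArg tup hAF
    rw [tup_actT, tup_coeffs, tup_coeffs] at h4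
    rw [← h4, h3, Units.val_mk0]
  · rintro ⟨φ, c, h⟩
    have h5 : (c : k) * (Matrix.det (φ : Matrix (Fin (N + 1)) (Fin (N + 1)) k))⁻¹ ≠ 0 :=
      mul_ne_zero c.ne_zero (inv_ne_zero (det_GL_ne φ))
    obtain ⟨t, ht⟩ := IsAlgClosed.exists_pow_nat_eq
      ((c : k) * (Matrix.det (φ : Matrix (Fin (N + 1)) (Fin (N + 1)) k))⁻¹) (n := N + d)
      (by omega)
    have ht0 : t ≠ 0 := by
      rintro rfl
      rw [zero_pow (by omega)] at ht
      exact h5 ht.symm
    symm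
    apply 𝓡.pt_eq' hd1 (A := t • (φ : Matrix (Fin (N + 1)) (Fin (N + 1)) k))
    · rw [Matrix.det_smul]
      exact mul_ne_zero (pow_ne_zero _ ht0) (det_GL_ne φ)
    · rw [actT_smul_mat, ht]
      unfold actT
      have h6 : G.1 = fun i => C ((c : k) *
          (Matrix.det (φ : Matrix (Fin (N + 1)) (Fin (N + 1)) k))⁻¹) *
            act (φ : Matrix (Fin (N + 1)) (Fin (N + 1)) k) F.1 i := by
        rw [h]
        funext i
        rw [conj_eq, ← mul_assoc, ← C_mul, mul_assoc (c : k), inv_mul_cancel₀ (det_GL_ne φ),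
          mul_one]
      rw [tup_coeffs, ← cf_C_mul, ← h6]
      rfl

end

end Pool.Agent.H887Z.Mod
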