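import Pool.Agent.H887Z.Mod.Der

/-!
Points with a nontrivial automorphism are singular.
-/

open MvPolynomial

namespace Pool.Agent.H887Z.Mod

open Pool.Agent.Helper819.Gr Pool.Agent.Helper819.Dyn

noncomputable section

set_option linter.unusedSectionVars false

variable {k : Type} [Field k] {N d : ℕ}

namespace RD

variable [IsAlgClosed k] (𝓡 : RD k N d)

theorem mulVec_dv {r : ℕ} (G : End k N d) (x : Fin r → Ix N d → 𝓡.RR)
    (E : (Fin r → k) →ₗ[k] (Ix N d → k)) (c : Fin r → k) (i : Fin r) :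
    (Matrix.of fun i j => 𝓡.dv G (x i) (E (Pi.single j 1))).mulVec c i = 𝓡.dv G (x i) (E c) :=
  lin_self ((𝓡.dv G (x i)).comp E) c

theorem exists_jac {r : ℕ} (x : Fin r → Ix N d → 𝓡.RR) (E : (Fin r → k) →ₗ[k] (Ix N d → k)) :
    ∃ J : MvPolynomial (Ix N d) k, ∀ G : End k N d, eval (coeffs G : Ix N d → k) J = 0 ↔
      ∃ c : Fin r → k, c ≠ 0 ∧ ∀ i, 𝓡.dv G (x i) (E c) = 0 := by
  let Jm : Matrix (Fin r) (Fin r) 𝓡.RR :=
    Matrix.of fun i j => ∑ p, algebraMap k 𝓡.RR (E (Pi.single j 1) p) * x i p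
  obtain ⟨n, J, hJ⟩ := 𝓡.exists_num Jm.det
  refine ⟨J, fun G => ?_⟩
  have h1 : 𝓡.ev G Jm.det = (Matrix.of fun i j => 𝓡.dv G (x i) (E (Pi.single j 1))).det := by
    rw [AlgHom.map_det]
    congr 1
    ext i j
    change 𝓡.ev G (∑ p, algebraMap k 𝓡.RR (E (Pi.single j 1) p) * x i p) =
      𝓡.dv G (x i) (E (Pi.single j 1))
    rw [dv_apply, map_sum]
    refine Finset.sum_congr rfl fun p _ => ?_
    rw [map_mul, AlgHom.commutes]
    rfl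
  rw [← hJ G, mul_eq_zero, or_iff_left (pow_ne_zero _ (𝓡.D_coeffs G)), h1,
    ← Matrix.exists_mulVec_eq_zero_iff]
  refine exists_congr fun c => and_congr_right fun _ => ?_
  rw [funext_iff]
  refine forall_congr' fun i => ?_
  rw [mulVec_dv]
  rfl

theorem dv_inv (hd : 1 ≤ d) (F : End k N d) {u : Inv k N d} (hu : u.1 F = 0) :
    (∀ Y, 𝓡.dv F (𝓡.der hd u) (Pool.Agent.Helper819.Dyn.xi Y (coeffs F : Ix N d → k)) = 0) ∧
    ∀ A, actT A (coeffs F : Ix N d → k) = coeffs F → ∀ v,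
      𝓡.dv F (𝓡.der hd u) (actT A v) = 𝓡.dv F (𝓡.der hd u) v := by
  have hinf : Infinite k := IsAlgClosed.instInfinite
  obtain ⟨m, q, hq⟩ := 𝓡.exists_rep0 u
  have h0 := pow_ne_zero m (𝓡.D_coeffs F)
  have hq0 : eval (coeffs F : Ix N d → k) q = 0 := by
    rw [← hq F, hu, zero_mul]
  constructor
  · intro Y
    have h1 := lf_xi (hq.semi hd) (ord_of_eval hq0) (fun _ => Y) 0
    rw [zero_add, ← 𝓡.dv_spec hd F hq hu, ← 𝓡.dv_spec hd F hq hu, map_zero, zero_mul] at h1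
    exact (mul_eq_zero.mp h1).resolve_right h0
  · intro A hA v
    have h1 := lf_stab (hq.semi hd) 1 (A := fun _ => A) hA v
    rw [𝓡.det_pow_eq_one (𝓡.D_coeffs F) hA, one_mul, ← 𝓡.dv_spec hd F hq hu,
      ← 𝓡.dv_spec hd F hq hu] at h1
    exact mul_right_cancel₀ h0 h1

theorem exists_dv [CharZero k] (hd : 2 ≤ d) (hd1 : 1 ≤ d) (G : End k N d)
    (hG : ∀ A : Matrix (Fin (N + 1)) (Fin (N + 1)) k, A.det ≠ 0 →
      actT A (coeffs G : Ix N d → k) = coeffs G → ∃ a : k, A = a • 1)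
    (μ : (Ix N d → k) →ₗ[k] k)
    (hμ : ∀ Y, μ (Pool.Agent.Helper819.Dyn.xi Y (coeffs G : Ix N d → k)) = 0) :
    ∃ u : Inv k N d, u.1 G = 0 ∧ ∀ v, 𝓡.dv G (𝓡.der hd1 u) v = μ v := by
  classical
  obtain ⟨m, q, hq, hord, hlf⟩ := 𝓡.lead hd (𝓡.D_coeffs G) 1 (lin μ X) (lin_homog μ) (by
    intro Y v
    rw [eval_lin_X, eval_lin_X, map_add, hμ, add_zero]) (by
    intro A hA hAG v
    obtain ⟨a, rfl⟩ := hG A hA hAG
    rw [actT_of_scalar ((𝓡.iff _).mp (𝓡.D_coeffs G)) hAG])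
  have h0 := pow_ne_zero m (𝓡.D_coeffs G)
  have h1 := 𝓡.rep_mk' hd1 m q hq
  have h2 : (𝓡.mk' hd1 m q hq).1 G = 0 := by
    have h3 := h1 G
    rw [eval_of_ord hord] at h3
    exact (mul_eq_zero.mp h3).resolve_right h0
  refine ⟨𝓡.mk' hd1 m q hq, h2, fun v => ?_⟩
  apply mul_right_cancel₀ h0
  rw [𝓡.dv_spec hd1 G h1 h2, hlf, eval_lin_X, mul_comm]

include 𝓡 in
theorem not_genBy_diag [CharZero k] (hN : 2 ≤ N) (hd : 2 ≤ d) (F : End k N d)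
    (l : Fin (N + 1) → k) (hl : ∀ j, l j ≠ 0) {p q : Fin (N + 1)} (hpq : l p ≠ l q)
    (hf : actT (Matrix.diagonal l) (coeffs F : Ix N d → k) = coeffs F)
    (S : Sl (coeffs F : Ix N d → k)) (hg : GenBy (pt F).asIdeal S.r) : False := by
  classical
  have hd1 : 1 ≤ d := by omega
  obtain ⟨t, ht1, ht2⟩ := hg
  obtain ⟨s, hs, hsu⟩ := 𝓡.nakayama hd1 F t ht1 ht2
  obtain ⟨J, hJ⟩ := 𝓡.exists_jac (fun i => 𝓡.der hd1 (t i)) S.E
  obtain ⟨n, s0, hs0⟩ := 𝓡.exists_num s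
  obtain ⟨Δ, hΔ1, hΔ2⟩ := S.exists_delta
  have hJf : eval (coeffs F : Ix N d → k) J = 0 := by
    rw [hJ]
    obtain ⟨v, hv⟩ := exists_not_mem_T hN hd l hl hpq hf
    have h1 := S.span (actT (Matrix.diagonal l) v - v)
    refine ⟨S.Λ (actT (Matrix.diagonal l) v - v), fun h => ?_, fun i => ?_⟩
    · rw [h, map_zero, zero_add] at h1
      exact hv _ h1
    · obtain ⟨h2, h3⟩ := 𝓡.dv_inv hd1 F (ht1 i)
      have h4 := congrArg (𝓡.dv F (𝓡.der hd1 (t i))) h1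
      rw [map_sub, h3 _ hf, sub_self, map_add, h2, add_zero] at h4
      exact h4.symm
  have hne : Nonempty (Ix N d) := ⟨(0, mo hd 0 0 0)⟩
  obtain ⟨g, hg1, hg2, hg3⟩ := avoid (fam k) card_FP J (s0 * (Δ * 𝓡.D)) (coeffs F) hJf (by
    rw [map_mul, map_mul, ← hs0]
    exact mul_ne_zero (mul_ne_zero hs (pow_ne_zero _ (𝓡.D_coeffs F)))
      (mul_ne_zero hΔ1 (𝓡.D_coeffs F)))
  rw [map_mul, map_mul] at hg2
  have hgD : eval g 𝓡.D ≠ 0 := right_ne_zero_of_mul (right_ne_zero_of_mul hg2)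
  obtain ⟨G, hG⟩ : ∃ G : End k N d, coeffs G = g := ⟨𝓡.toEnd g hgD, 𝓡.coeffs_toEnd g hgD⟩
  subst hG
  obtain ⟨c, hc0, hc⟩ := (hJ G).mp hg1
  have hw : S.E c ∉ LinearMap.range (xiL (coeffs G : Ix N d → k)) := by
    rintro ⟨Y, hY⟩
    have h1 : Y = 0 := hΔ2 _ (left_ne_zero_of_mul (right_ne_zero_of_mul hg2)) Y (by
      change S.P (xiL (coeffs G : Ix N d → k) Y) = 0
      rw [hY, S.PE])
    rw [h1, map_zero] at hY
    apply hc0
    rw [← S.ΛE c, ← hY, map_zero]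
  obtain ⟨μ, hμ1, hμ2⟩ := Submodule.exists_dual_map_eq_bot_of_notMem hw inferInstance
  obtain ⟨u, -, hu⟩ := 𝓡.exists_dv hd hd1 G (by
    intro A hA hAG
    by_contra hcon
    obtain ⟨x, hx⟩ := mem_fam hN hd ((𝓡.iff _).mp hgD) hA hAG hcon
    obtain ⟨P, hP1, hP2⟩ := hg3 x
    exact hP2 (hx P hP1)) μ (by
    intro Y
    have h1 : μ (xiL (coeffs G : Ix N d → k) Y) ∈
        (LinearMap.range (xiL (coeffs G : Ix N d → k))).map μ :=
      Submodule.mem_map_of_mem ⟨Y, rfl⟩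
    rw [hμ2] at h1
    exact h1)
  obtain ⟨a, ha⟩ := hsu u
  have h1 : 𝓡.ev G s * 𝓡.dv G (𝓡.der hd1 u) (S.E c) =
      ∑ i, 𝓡.ev G (a i) * 𝓡.dv G (𝓡.der hd1 (t i)) (S.E c) := by
    simp only [dv_apply, Finset.mul_sum]
    rw [Finset.sum_comm]
    refine Finset.sum_congr rfl fun p _ => ?_
    have h2 := congrArg (𝓡.ev G) (congrFun ha p)
    rw [Finset.sum_apply, map_sum, Pi.smul_apply, smul_eq_mul, map_mul] at h2
    rw [mul_left_comm, ← h2, Finset.mul_sum]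
    refine Finset.sum_congr rfl fun i _ => ?_
    rw [Pi.smul_apply, smul_eq_mul, map_mul]
    ring
  rw [hu, Finset.sum_eq_zero (fun i _ => by rw [hc i, mul_zero])] at h1
  refine mul_ne_zero (fun h => ?_) hμ1 h1
  have h3 := hs0 G
  rw [h, zero_mul] at h3
  exact left_ne_zero_of_mul hg2 h3.symm

include 𝓡 in
theorem pt_eq (hd : 1 ≤ d) {F G : End k N d} {A : Matrix (Fin (N + 1)) (Fin (N + 1)) k}
    (hA : A.det ≠ 0) (hG : coeffs G = actT A (coeffs F)) : pt G = pt F := by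
  apply PrimeSpectrum.ext
  ext h
  rw [mem_pt, mem_pt, 𝓡.inv_actT hd h hA hG]

end RD

theorem singular_of_aut [IsAlgClosed k] [CharZero k] (hN : 2 ≤ N) (hd : 2 ≤ d) (F : End k N d)
    (hF : HasNontrivialAut F) : ¬ IsRegularLocalRing (Localization.AtPrime (pt F).asIdeal) := by
  have hd1 : 1 ≤ d := by omega
  obtain ⟨𝓡⟩ := exists_RD (k := k) (N := N) hd1
  obtain ⟨A, hA, hAF, hs⟩ := (aut_iff hd1 F).mp hF
  obtain ⟨β, l, p, q, hβ, hl, hpq, hfix⟩ :=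
    exists_diag' hd ((𝓡.iff _).mp (𝓡.D_coeffs F)) hA hAF hs
  have h1 : eval (actT β (coeffs F : Ix N d → k)) 𝓡.D ≠ 0 := by
    rw [𝓡.eval_actT_D]
    exact mul_ne_zero (pow_ne_zero _ hβ) (𝓡.D_coeffs F)
  obtain ⟨G, hG⟩ : ∃ G : End k N d, coeffs G = actT β (coeffs F : Ix N d → k) :=
    ⟨𝓡.toEnd _ h1, 𝓡.coeffs_toEnd _ h1⟩
  rw [← 𝓡.pt_eq hd1 hβ hG]
  intro hreg
  obtain ⟨S⟩ := exists_Sl hd ((𝓡.iff _).mp (𝓡.D_coeffs G))
  refine 𝓡.not_genBy_diag hN hd G l hl hpq (by rw [hG]; exact hfix) S ?_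
  exact genBy_of_regular _ _ hreg (S.dim_le hd1 𝓡 (𝓡.D_coeffs G))

end

end Pool.Agent.H887Z.Mod
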