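import Pool.Agent.H887Z.Mod.Act
import Pool.Agent.H887Z.Mod.Gen
import Pool.Agent.Helper819.LieInj

/-!
A linear slice transversal to an orbit and the dimension of the ring of invariants.
-/

open MvPolynomial

namespace Pool.Agent.H887Z.Mod

open Pool.Agent.Helper819.Gr Pool.Agent.Helper819.Dyn

noncomputable section

set_option linter.unusedSectionVars false

section lin

variable {k σ : Type} [Field k] [Fintype σ] [DecidableEq σ]

/-- base change of a linear form -/
def lin {R : Type} [CommRing R] [Algebra k R] (μ : (σ → k) →ₗ[k] k) (x : σ → R) : R :=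
  ∑ p, algebraMap k R (μ (Pi.single p 1)) * x p

theorem lin_self (μ : (σ → k) →ₗ[k] k) (x : σ → k) : lin μ x = μ x := by
  unfold lin
  conv_rhs => rw [pi_eq_sum_univ' x, map_sum]
  refine Finset.sum_congr rfl fun p _ => ?_
  rw [map_smul, smul_eq_mul, mul_comm]
  rfl

theorem eval_lin {τ : Type} (μ : (σ → k) →ₗ[k] k) (x : σ → MvPolynomial τ k) (y : τ → k) :
    eval y (lin μ x) = μ (fun p => eval y (x p)) := by
  rw [← lin_self]
  unfold lin
  rw [map_sum]
  refine Finset.sum_congr rfl fun p _ => ?_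
  rw [map_mul, algebraMap_eq, eval_C]
  rfl

theorem lin_homog (μ : (σ → k) →ₗ[k] k) :
    (lin μ (X : σ → MvPolynomial σ k)).IsHomogeneous 1 :=
  IsHomogeneous.sum _ _ _ fun _ _ => isHomogeneous_C_mul_X _ _

theorem eval_lin_X (μ : (σ → k) →ₗ[k] k) (v : σ → k) :
    eval v (lin μ (X : σ → MvPolynomial σ k)) = μ v := by
  rw [eval_lin]
  simp only [eval_X]

theorem eq_zero_of_ord [Infinite k] {q : MvPolynomial σ k} {f : σ → k} (h : ∀ j, Ord j q f) :
    q = 0 := by
  apply MvPolynomial.funext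
  intro v
  have h1 : tayl f (v - f) q = 0 := by
    ext j
    rw [← eval_lf, h (j + 1) j (Nat.lt_succ_self j), map_zero, Polynomial.coeff_zero]
  have h2 := eval_tayl (1 : k) f (v - f) q
  rw [h1, Polynomial.eval_zero, aeval_eq_eval_self] at h2
  rw [map_zero, h2]
  congr 2
  funext p
  rw [Pi.sub_apply]
  ring

theorem eval_of_ord {q : MvPolynomial σ k} {f : σ → k} (h : Ord 1 q f) : eval f q = 0 := by
  have h1 := eval_lf 0 q f 0
  rw [h 0 (by omega), map_zero, tayl_coeff_zero, aeval_eq_eval_self] at h1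
  exact h1.symm

theorem ord_of_eval [Infinite k] {q : MvPolynomial σ k} {f : σ → k} (h : eval f q = 0) :
    Ord 1 q f := by
  intro i hi
  have hi0 : i = 0 := by omega
  subst hi0
  apply MvPolynomial.funext
  intro v
  rw [eval_lf, tayl_coeff_zero, aeval_eq_eval_self, h, map_zero]

theorem eval_lf_one (q : MvPolynomial σ k) (f v : σ → k) :
    eval v (lf 1 q f) = ∑ p, v p * eval f (pderiv p q) := by
  rw [eval_lf, tayl_coeff_one]
  simp only [aeval_eq_eval_self]

end lin

variable {k : Type} [Field k] {N d : ℕ}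

/-- slice data at `f` -/
structure Sl (f : Ix N d → k) where
  r : ℕ
  E : (Fin r → k) →ₗ[k] (Ix N d → k)
  Λ : (Ix N d → k) →ₗ[k] (Fin r → k)
  P : (Ix N d → k) →ₗ[k] Matrix (Fin (N + 1)) (Fin (N + 1)) k
  hr : r + (N + 1) * (N + 1) = Fintype.card (Ix N d)
  ΛE : ∀ c, Λ (E c) = c
  Λξ : ∀ Y, Λ (Pool.Agent.Helper819.Dyn.xi Y f) = 0
  PE : ∀ c, P (E c) = 0
  Pξ : ∀ Y, P (Pool.Agent.Helper819.Dyn.xi Y f) = Y
  span : ∀ v, v = E (Λ v) + Pool.Agent.Helper819.Dyn.xi (P v) f

theorem xiL_inj [IsAlgClosed k] [CharZero k] (hd : 2 ≤ d) {f : Ix N d → k} (hf : NZ (tup f)) :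
    Function.Injective (xiL f) := by
  rw [injective_iff_map_eq_zero]
  intro A hA
  apply lie_inj hd hf A
  intro i
  have h1 := congrArg tup (show Pool.Agent.Helper819.Dyn.xi A f = 0 from hA)
  rw [tup_xi (by omega)] at h1
  have h2 := congrFun h1 i
  have h3 : tup (0 : Ix N d → k) i = 0 := by
    unfold tup
    simp
  rw [h3] at h2
  unfold lieT at h2
  linear_combination h2

theorem exists_Sl [IsAlgClosed k] [CharZero k] (hd : 2 ≤ d) {f : Ix N d → k}
    (hf : NZ (tup f)) : Nonempty (Sl f) := by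
  have hinj := xiL_inj hd hf
  obtain ⟨W, hW⟩ := Submodule.exists_isCompl (LinearMap.range (xiL f))
  let b : W ≃ₗ[k] (Fin (Module.finrank k W) → k) := (Module.finBasis k W).equivFun
  let a := LinearEquiv.ofInjective (xiL f) hinj
  let Φ := (a.prodCongr b.symm).trans (Submodule.prodEquivOfIsCompl _ _ hW)
  have hΦ : ∀ Y c, Φ (Y, c) = Pool.Agent.Helper819.Dyn.xi Y f + (b.symm c : Ix N d → k) :=
    fun Y c => rfl
  have h1 : ∀ c, Φ.symm (b.symm c : Ix N d → k) = (0, c) := by
    intro c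
    rw [LinearEquiv.symm_apply_eq, hΦ]
    have : Pool.Agent.Helper819.Dyn.xi 0 f = 0 := map_zero (xiL f)
    rw [this, zero_add]
  have h2 : ∀ Y, Φ.symm (Pool.Agent.Helper819.Dyn.xi Y f) = (Y, 0) := by
    intro Y
    rw [LinearEquiv.symm_apply_eq, hΦ, map_zero, Submodule.coe_zero, add_zero]
  refine ⟨⟨Module.finrank k W, W.subtype.comp b.symm.toLinearMap,
    (LinearMap.snd k _ _).comp Φ.symm.toLinearMap, (LinearMap.fst k _ _).comp Φ.symm.toLinearMap,
    ?_, ?_, ?_, ?_, ?_, ?_⟩⟩
  · have h3 := Φ.finrank_eq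
    rw [Module.finrank_prod, Module.finrank_matrix, Module.finrank_fintype_fun_eq_card,
      Module.finrank_fintype_fun_eq_card, Fintype.card_fin, Fintype.card_fin,
      Module.finrank_self] at h3
    rw [← h3]
    ring
  · intro c
    exact congrArg Prod.snd (h1 c)
  · intro Y
    exact congrArg Prod.snd (h2 Y)
  · intro c
    exact congrArg Prod.fst (h1 c)
  · intro Y
    exact congrArg Prod.fst (h2 Y)
  · intro v
    have h3 := hΦ (Φ.symm v).1 (Φ.symm v).2
    rw [Prod.mk.eta, LinearEquiv.apply_symm_apply, add_comm] at h3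
    exact h3

namespace Sl

variable {f : Ix N d → k} (S : Sl f)

theorem exists_delta : ∃ Δ : MvPolynomial (Ix N d) k, eval f Δ ≠ 0 ∧ ∀ g : Ix N d → k,
    eval g Δ ≠ 0 → ∀ Y, S.P (Pool.Agent.Helper819.Dyn.xi Y g) = 0 → Y = 0 := by
  classical
  let b := Matrix.stdBasis k (Fin (N + 1)) (Fin (N + 1))
  let Θ : Matrix (Fin (N + 1) × Fin (N + 1)) (Fin (N + 1) × Fin (N + 1))
      (MvPolynomial (Ix N d) k) := Matrix.of fun i j =>
    lin ((b.coord i).comp S.P) (Pool.Agent.Helper819.Dyn.xi ((b j).map C) X)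
  have h1 : ∀ g : Ix N d → k, eval g Θ.det = LinearMap.det (S.P.comp (xiL g)) := by
    intro g
    rw [RingHom.map_det, ← LinearMap.det_toMatrix b]
    congr 1
    ext i j
    rw [LinearMap.toMatrix_apply]
    change eval g (lin _ _) = _
    rw [eval_lin]
    have h2 : (fun p => eval g (Pool.Agent.Helper819.Dyn.xi ((b j).map C)
        (X : Ix N d → MvPolynomial (Ix N d) k) p)) = Pool.Agent.Helper819.Dyn.xi (b j) g := by
      funext p
      rw [Pool.Agent.Helper819.Dyn.map_xi]
      congr 1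
      · ext a a'
        simp
      · funext a
        exact eval_X _
    rw [h2]
    rfl
  refine ⟨Θ.det, ?_, fun g hg Y hY => ?_⟩
  · rw [h1]
    have h2 : S.P.comp (xiL f) = LinearMap.id := LinearMap.ext S.Pξ
    rw [h2, LinearMap.det_id]
    exact one_ne_zero
  · rw [h1] at hg
    have h2 := (LinearMap.isUnit_iff_isUnit_det _).mpr (isUnit_iff_ne_zero.mpr hg)
    have h3 := (LinearMap.isUnit_iff_ker_eq_bot _).mp h2
    have h4 : Y ∈ LinearMap.ker (S.P.comp (xiL g)) := hY
    rw [h3] at h4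
    exact h4

/-- restriction to the slice -/
def res : MvPolynomial (Ix N d) k →ₐ[k] MvPolynomial (Fin S.r) k :=
  aeval fun p => C (f p) + lin ((LinearMap.proj p).comp S.E) X

theorem eval_res (y : Fin S.r → k) (q : MvPolynomial (Ix N d) k) :
    eval y (S.res q) = eval (f + S.E y) q := by
  unfold res
  rw [aeval_eq_bind₁, Pool.Agent.Helper819.Zar.eval_bind]
  have h1 : (fun p => eval y (C (f p) + lin ((LinearMap.proj p).comp S.E)
      (X : Fin S.r → MvPolynomial (Fin S.r) k))) = f + S.E y := by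
    funext p
    rw [map_add, eval_C, eval_lin_X]
    rfl
  rw [h1]

theorem eq_zero_of_res [Infinite k] {w : Unit → ℕ} {q : MvPolynomial (Ix N d) k}
    (hq : IsSemi (CA N d).toRAct w q) (h : S.res q = 0) : q = 0 := by
  apply eq_zero_of_ord (f := f)
  intro j
  induction j with
  | zero => intro i hi; omega
  | succ j ih =>
    intro i hi
    rcases Nat.lt_succ_iff_lt_or_eq.mp hi with hi' | rfl
    · exact ih i hi'
    · apply MvPolynomial.funext
      intro v
      have h1 := lf_xi hq ih (fun _ => S.P v) (S.E (S.Λ v))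
      have h2 : tayl f (S.E (S.Λ v)) q = 0 := by
        apply Polynomial.funext
        intro s
        rw [eval_tayl, aeval_eq_eval_self, Polynomial.eval_zero]
        have h3 := S.eval_res (s • S.Λ v) q
        rw [h, map_zero, map_smul] at h3
        exact h3.symm
      rw [eval_lf _ _ _ (S.E (S.Λ v)), h2, Polynomial.coeff_zero] at h1
      rw [map_zero, ← h1]
      congr 2
      exact S.span v

theorem dim_le [IsAlgClosed k] (hd : 1 ≤ d) (𝓡 : RD k N d) (hf : eval f 𝓡.D ≠ 0) :
    ringKrullDim (Inv k N d) ≤ S.r := by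
  have hinf : Infinite k := IsAlgClosed.instInfinite
  let φ : MvPolynomial (Ix N d) k →ₐ[k] FractionRing (MvPolynomial (Fin S.r) k) :=
    (IsScalarTower.toAlgHom k (MvPolynomial (Fin S.r) k) _).comp S.res
  have hinj : ∀ q, φ q = 0 → S.res q = 0 := fun q hq =>
    IsFractionRing.injective (MvPolynomial (Fin S.r) k) (FractionRing (MvPolynomial (Fin S.r) k))
      (by rw [map_zero]; exact hq)
  have hφ : IsUnit (φ 𝓡.D) := by
    rw [isUnit_iff_ne_zero]
    intro h
    have h1 := S.eval_res 0 𝓡.D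
    rw [hinj _ h, map_zero, map_zero, add_zero] at h1
    exact hf h1.symm
  apply dim_le_of_inj S.r (𝓡.lift hd φ hφ)
  rw [injective_iff_map_eq_zero]
  intro h hh
  obtain ⟨m, q, hq⟩ := 𝓡.exists_rep0 h
  have h1 := 𝓡.lift_spec hd φ hφ hq
  rw [hh, zero_mul] at h1
  have h2 := S.eq_zero_of_res (hq.semi hd) (hinj _ h1.symm)
  apply Subtype.ext
  funext F
  have h3 := hq F
  rw [h2, map_zero] at h3
  exact (mul_eq_zero.mp h3).resolve_right (pow_ne_zero _ (𝓡.D_coeffs F))

end Sl

end

end Pool.Agent.H887Z.Mod
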